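import Pool.Agent.H164R5.PLift
import Pool.Agent.H126R2.CDC.Colour

set_option autoImplicit false
set_option linter.unusedSectionVars false

/-!
Eight even classes covering the edges of `s` once and all other edges twice.
-/

namespace Pool.Agent.H164R5

open Finset
open Pool.Agent.Helper879.ECD (F2 IsFlow f2_add_self f2_cases)
open Pool.Agent.H126R2.CDC

section

variable {W E : Type} [Fintype W] [DecidableEq W] [Fintype E] [DecidableEq E]

theorem tab_pq : ∀ p q c : T3, p ≠ q →
    xor (xor (decide (c = p)) (decide (c = q)))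
      (inS c (T3.add p q) (T3.add (lam p) (lam q))) = false := by
  decide +kernel

theorem tab_lam : ∀ a0 a1 a0' a1' y0 y1 y2 : F2,
    ((toB ((a0 + a1 * y2) + (a0' + a1' * y2)),
      toB ((a0 + a1 + a0 * y2) + (a0' + a1' + a0' * y2)),
      toB ((a0 + a1 + a0 * a1 + (a0 * y1 + a1 * y0)) +
        (a0' + a1' + a0' * a1' + (a0' * y1 + a1' * y0)))) : T3) =
    T3.add (lam (toB (a0 + y0), toB (a1 + y1), toB y2))
      (lam (toB (a0' + y0), toB (a1' + y1), toB y2)) := by
  decide +kernel

theorem add_self_T3 : ∀ p : T3, T3.add p p = (false, false, false) := by decide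

theorem toB_false : ∀ x : F2, toB x = false → x = 0 := by decide

/-- the class function -/
def cls (s : E → F2) (A' B : Fin 3 → E → F2) (e : E) : Finset T3 :=
  if s e = 1 then {lab A' e} else univ.filter (fun c : T3 => inS c (lab A' e) (lab B e) = true)

lemma cls_one {s : E → F2} {A' B : Fin 3 → E → F2} {e : E} (h : s e = 1) (c : T3) :
    (if c ∈ cls s A' B e then (1 : F2) else 0) =
      if decide (c = lab A' e) = true then 1 else 0 := by
  unfold cls
  rw [if_pos h]
  simp

lemma cls_zero {s : E → F2} {A' B : Fin 3 → E → F2} {e : E} (h : s e = 0) (c : T3) :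
    (if c ∈ cls s A' B e then (1 : F2) else 0) =
      if inS c (lab A' e) (lab B e) = true then 1 else 0 := by
  have h1 : ¬ s e = 1 := by rw [h]; decide
  unfold cls
  rw [if_neg h1]
  simp

/-- the situation at a vertex of `s` -/
lemma mixed (s : E → F2) (A0 A1 z : E → F2) (B y : Fin 3 → E → F2) (e f g : E)
    (he : s e = 1) (hf : s f = 1) (hg : s g = 0)
    (hsz : ∀ e, s e * z e = 0)
    (hnz : ∀ e, s e = 0 → A0 e ≠ 0 ∨ A1 e ≠ 0 ∨ z e ≠ 0)
    (hysup : ∀ i e, (1 + s e) * y i e = 0)
    (hB1 : ∀ e, s e = 1 → B 0 e = A0 e + A1 e * y 2 e ∧ B 1 e = A0 e + A1 e + A0 e * y 2 e ∧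
        B 2 e = A0 e + A1 e + A0 e * A1 e + (A0 e * y 1 e + A1 e * y 0 e))
    (sA0 : A0 g = A0 e + A0 f) (sA1 : A1 g = A1 e + A1 f) (sz : z g = z e + z f)
    (sB : ∀ i, B i g = B i e + B i f) (sy : ∀ i, y i g = y i e + y i f) (c : T3) :
    let A' : Fin 3 → E → F2 := ![fun e => A0 e + y 0 e, fun e => A1 e + y 1 e,
      fun e => z e + y 2 e]
    (if c ∈ cls s A' B e then (1 : F2) else 0) + ((if c ∈ cls s A' B f then 1 else 0) +
      (if c ∈ cls s A' B g then 1 else 0)) = 0 := by
  intro A'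
  have hyg : ∀ i, y i g = 0 := by
    intro i
    have := hysup i g
    rw [hg, add_zero, one_mul] at this
    exact this
  have hyef : ∀ i, y i f = y i e := by
    intro i
    have := sy i
    rw [hyg i] at this
    exact (f2_eq_of_add this.symm).symm
  have hze : z e = 0 := by have := hsz e; rw [he, one_mul] at this; exact this
  have hzf : z f = 0 := by have := hsz f; rw [hf, one_mul] at this; exact this
  have hlab : lab A' g = T3.add (lab A' e) (lab A' f) := by
    apply lab_add
    intro i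
    fin_cases i
    · show A0 g + y 0 g = (A0 e + y 0 e) + (A0 f + y 0 f)
      rw [sA0, sy 0]; ring
    · show A1 g + y 1 g = (A1 e + y 1 e) + (A1 f + y 1 f)
      rw [sA1, sy 1]; ring
    · show z g + y 2 g = (z e + y 2 e) + (z f + y 2 f)
      rw [sz, sy 2]; ring
  have hlabe : lab A' e = (toB (A0 e + y 0 e), toB (A1 e + y 1 e), toB (y 2 e)) := by
    show (toB (A0 e + y 0 e), toB (A1 e + y 1 e), toB (z e + y 2 e)) = _
    rw [hze, zero_add]
  have hlabf : lab A' f = (toB (A0 f + y 0 e), toB (A1 f + y 1 e), toB (y 2 e)) := by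
    show (toB (A0 f + y 0 f), toB (A1 f + y 1 f), toB (z f + y 2 f)) = _
    rw [hzf, zero_add, hyef, hyef, hyef]
  have hlabB : lab B g = T3.add (lam (lab A' e)) (lam (lab A' f)) := by
    rw [hlabe, hlabf, ← tab_lam]
    show (toB (B 0 g), toB (B 1 g), toB (B 2 g)) = _
    rw [sB 0, sB 1, sB 2, (hB1 e he).1, (hB1 e he).2.1, (hB1 e he).2.2, (hB1 f hf).1,
      (hB1 f hf).2.1, (hB1 f hf).2.2, hyef, hyef, hyef]
  have hne : lab A' e ≠ lab A' f := by
    intro h
    rw [← h, add_self_T3] at hlab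
    have h0 : toB (A0 g + y 0 g) = false := congrArg Prod.fst hlab
    have h1 : toB (A1 g + y 1 g) = false := congrArg (fun p => p.2.1) hlab
    have h2 : toB (z g + y 2 g) = false := congrArg (fun p => p.2.2) hlab
    rw [hyg, add_zero] at h0 h1 h2
    rcases hnz g hg with h | h | h
    · exact h (toB_false _ h0)
    · exact h (toB_false _ h1)
    · exact h (toB_false _ h2)
  rw [cls_one he, cls_one hf, cls_zero hg]
  apply xor3
  rw [hlab, hlabB]
  exact tab_pq _ _ _ hne

/-- eight even classes covering the edges of `s` once and all other edges twice -/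
theorem classes (v : E × Bool → W) (hdeg : ∀ w, (univ.filter (fun h => v h = w)).card = 3)
    (A0 A1 z s : E → F2) (hA0 : IsFl v A0) (hA1 : IsFl v A1)
    (hz : IsFl v z) (hs : IsFl v s) (hsz : ∀ e, s e * z e = 0)
    (hnz : ∀ e, s e = 0 → A0 e ≠ 0 ∨ A1 e ≠ 0 ∨ z e ≠ 0)
    (hpar : ∀ x : W → F2, (∀ e, s e = 0 → z e = 0 → x (v (e, false)) = x (v (e, true))) →
      (∀ c : W → F2, (∀ e, s e + z e = 1 → c (v (e, false)) = c (v (e, true))) →
        ∑ e, (1 + s e + z e) * x (v (e, false)) * A0 e *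
          (c (v (e, false)) + c (v (e, true))) = 0 ∧
        ∑ e, (1 + s e + z e) * x (v (e, false)) * A1 e *
          (c (v (e, false)) + c (v (e, true))) = 0) →
      (∀ e, s e = 1 → x (v (e, false)) = x (v (e, true))) ∨
        ∑ e, A0 e * A1 e * (x (v (e, false)) + x (v (e, true))) = 0) :
    ∃ S : E → Finset T3, (∀ e, s e = 0 → (S e).card = 2) ∧ (∀ e, s e = 1 → (S e).card = 1) ∧
      ∀ c, IsFl v (fun e => if c ∈ S e then 1 else 0) := by
  obtain ⟨B, y, hB, hy, hysup, hAB, hB1⟩ := plift (fun e => v (e, false)) (fun e => v (e, true))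
    A0 A1 z s ((isFl_iff v A0).1 hA0) ((isFl_iff v A1).1 hA1) ((isFl_iff v z).1 hz)
    ((isFl_iff v s).1 hs) hsz hnz hpar
  have hB' : ∀ i, IsFl v (B i) := fun i => (isFl_iff v (B i)).2 (hB i)
  have hy' : ∀ i, IsFl v (y i) := fun i => (isFl_iff v (y i)).2 (hy i)
  set A' : Fin 3 → E → F2 := ![fun e => A0 e + y 0 e, fun e => A1 e + y 1 e,
      fun e => z e + y 2 e] with hA'
  have hdot : ∀ e, s e = 0 → dot (lab A' e) (lab B e) = true := by
    intro e he
    have hyz : ∀ i, y i e = 0 := by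
      intro i
      have := hysup i e
      rw [he, add_zero, one_mul] at this
      exact this
    have h1 : lab A' e = (toB (A0 e), toB (A1 e), toB (z e)) := by
      show (toB (A0 e + y 0 e), toB (A1 e + y 1 e), toB (z e + y 2 e)) = _
      rw [hyz, hyz, hyz, add_zero, add_zero, add_zero]
    rw [h1]
    exact toB_dot _ _ _ _ _ _ (hAB e he)
  refine ⟨cls s A' B, ?_, ?_, ?_⟩
  · intro e he
    have h1 : ¬ s e = 1 := by rw [he]; decide
    unfold cls
    rw [if_neg h1]
    exact card_inS _ _ (hdot e he)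
  · intro e he
    unfold cls
    rw [if_pos he]
    simp
  · intro c w
    have hgoal : ∀ g : E → F2, ∑ h : E × Bool, (if v h = w then g h.1 else 0) =
        ∑ h ∈ univ.filter (fun h => v h = w), g h.1 := by
      intro g; rw [Finset.sum_filter]
    have hA02 : ∑ h ∈ univ.filter (fun h => v h = w), A0 h.1 = 0 := by
      rw [← hgoal]; exact hA0 w
    have hA12 : ∑ h ∈ univ.filter (fun h => v h = w), A1 h.1 = 0 := by
      rw [← hgoal]; exact hA1 w
    have hz2 : ∑ h ∈ univ.filter (fun h => v h = w), z h.1 = 0 := by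
      rw [← hgoal]; exact hz w
    have hs2 : ∑ h ∈ univ.filter (fun h => v h = w), s h.1 = 0 := by
      rw [← hgoal]; exact hs w
    have hB2 : ∀ i, ∑ h ∈ univ.filter (fun h => v h = w), B i h.1 = 0 := by
      intro i; rw [← hgoal]; exact hB' i w
    have hy2 : ∀ i, ∑ h ∈ univ.filter (fun h => v h = w), y i h.1 = 0 := by
      intro i; rw [← hgoal]; exact hy' i w
    rw [hgoal (fun e => if c ∈ cls s A' B e then 1 else 0)]
    have hd := hdeg w
    generalize univ.filter (fun h => v h = w) = H at *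
    obtain ⟨p, q, r, hpq, hpr, hqr, rfl⟩ := Finset.card_eq_three.1 hd
    have hsum : ∀ g : E × Bool → F2, ∑ h ∈ ({p, q, r} : Finset (E × Bool)), g h =
        g p + (g q + g r) := by
      intro g
      rw [Finset.sum_insert (by simp [hpq, hpr]), Finset.sum_pair hqr]
    rw [hsum] at hA02 hA12 hz2 hs2 ⊢
    have hB3 : ∀ i, B i p.1 + (B i q.1 + B i r.1) = 0 := fun i => by
      have := hB2 i; rw [hsum] at this; exact this
    have hy3 : ∀ i, y i p.1 + (y i q.1 + y i r.1) = 0 := fun i => by
      have := hy2 i; rw [hsum] at this; exact this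
    rcases f2_cases (s p.1) with sp | sp <;> rcases f2_cases (s q.1) with sq | sq
    · have sr : s r.1 = 0 := by rw [sp, sq] at hs2; simpa using hs2
      have h1 : lab A' r.1 = T3.add (lab A' p.1) (lab A' q.1) := by
        apply lab_add
        intro i
        fin_cases i
        · show A0 r.1 + y 0 r.1 = (A0 p.1 + y 0 p.1) + (A0 q.1 + y 0 q.1)
          rw [f2_eq_of_add3 hA02, f2_eq_of_add3 (hy3 0)]; ring
        · show A1 r.1 + y 1 r.1 = (A1 p.1 + y 1 p.1) + (A1 q.1 + y 1 q.1)
          rw [f2_eq_of_add3 hA12, f2_eq_of_add3 (hy3 1)]; ring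
        · show z r.1 + y 2 r.1 = (z p.1 + y 2 p.1) + (z q.1 + y 2 q.1)
          rw [f2_eq_of_add3 hz2, f2_eq_of_add3 (hy3 2)]; ring
      have h2 : lab B r.1 = T3.add (lab B p.1) (lab B q.1) :=
        lab_add B _ _ _ (fun i => f2_eq_of_add3 (hB3 i))
      show (if c ∈ cls s A' B p.1 then (1 : F2) else 0) + ((if c ∈ cls s A' B q.1 then 1 else 0) +
        (if c ∈ cls s A' B r.1 then 1 else 0)) = 0
      rw [cls_zero sp, cls_zero sq, cls_zero sr]
      apply xor3
      have h3 := hdot r.1 sr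
      rw [h1, h2] at h3 ⊢
      apply tri_inS
      rw [hdot p.1 sp, hdot q.1 sq, h3]
      rfl
    · have sr : s r.1 = 1 := by
        rw [sp, sq] at hs2
        have : ∀ u : F2, 0 + (1 + u) = 0 → u = 1 := by decide
        exact this _ hs2
      have := mixed s A0 A1 z B y q.1 r.1 p.1 sq sr sp hsz hnz hysup hB1
        (f2_eq_of_add hA02) (f2_eq_of_add hA12) (f2_eq_of_add hz2)
        (fun i => f2_eq_of_add (hB3 i)) (fun i => f2_eq_of_add (hy3 i)) c
      have h5 : ∀ a b c : F2, a + (b + c) = 0 → c + (a + b) = 0 := by decide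
      exact h5 _ _ _ this
    · have sr : s r.1 = 1 := by
        rw [sp, sq] at hs2
        have : ∀ u : F2, 1 + (0 + u) = 0 → u = 1 := by decide
        exact this _ hs2
      have h6 : ∀ a b c : F2, a + (b + c) = 0 → b = a + c := by decide
      have := mixed s A0 A1 z B y p.1 r.1 q.1 sp sr sq hsz hnz hysup hB1
        (h6 _ _ _ hA02) (h6 _ _ _ hA12) (h6 _ _ _ hz2)
        (fun i => h6 _ _ _ (hB3 i)) (fun i => h6 _ _ _ (hy3 i)) c
      have h5 : ∀ a b c : F2, a + (b + c) = 0 → a + (c + b) = 0 := by decide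
      exact h5 _ _ _ this
    · have sr : s r.1 = 0 := by
        rw [sp, sq] at hs2
        have : ∀ u : F2, 1 + (1 + u) = 0 → u = 0 := by decide
        exact this _ hs2
      exact mixed s A0 A1 z B y p.1 q.1 r.1 sp sq sr hsz hnz hysup hB1
        (f2_eq_of_add3 hA02) (f2_eq_of_add3 hA12) (f2_eq_of_add3 hz2)
        (fun i => f2_eq_of_add3 (hB3 i)) (fun i => f2_eq_of_add3 (hy3 i)) c

end

end Pool.Agent.H164R5
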