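import Pool.Agent.H164R2.Solve

set_option autoImplicit false

/-!
A concrete model of the field with four elements.
-/

namespace Pool.Agent.H164R5

/-- the field with four elements: (a, b) stands for a + b w with w ^ 2 = w + 1 -/
structure F4 where
  x : ZMod 2
  y : ZMod 2
deriving DecidableEq

namespace F4

def equivProd : F4 ≃ ZMod 2 × ZMod 2 where
  toFun z := (z.x, z.y)
  invFun z := ⟨z.1, z.2⟩
  left_inv _ := rfl
  right_inv _ := rfl

instance : Fintype F4 := Fintype.ofEquiv _ equivProd.symm

instance : Zero F4 := ⟨⟨0, 0⟩⟩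
instance : One F4 := ⟨⟨1, 0⟩⟩
instance : Add F4 := ⟨fun a b => ⟨a.x + b.x, a.y + b.y⟩⟩
instance : Neg F4 := ⟨fun a => a⟩
instance : Mul F4 := ⟨fun a b => ⟨a.x * b.x + a.y * b.y, a.x * b.y + a.y * b.x + a.y * b.y⟩⟩
instance : Inv F4 := ⟨fun a => ⟨a.x + a.y, a.y⟩⟩

instance : Field F4 := Field.ofMinimalAxioms F4
  (by decide) (by decide) (by decide) (by decide) (by decide) (by decide) (by decide)
  (by decide) (by decide) (by decide)

theorem add_x (a b : F4) : (a + b).x = a.x + b.x := rfl
theorem add_y (a b : F4) : (a + b).y = a.y + b.y := rfl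
theorem zero_x : (0 : F4).x = 0 := rfl
theorem zero_y : (0 : F4).y = 0 := rfl
theorem mul_x (a b : F4) : (a * b).x = a.x * b.x + a.y * b.y := rfl
theorem mul_y (a b : F4) : (a * b).y = a.x * b.y + a.y * b.x + a.y * b.y := rfl

theorem one_add_one : (1 : F4) + 1 = 0 := by decide

instance : CharP F4 2 := CharTwo.of_one_ne_zero_of_two_eq_zero (by decide) (by
  rw [← one_add_one_eq_two]; exact one_add_one)

end F4

end Pool.Agent.H164R5
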