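import Pool.Agent.H164R5.Split
import Pool.Agent.H164R5.F4

set_option autoImplicit false
set_option linter.unusedSectionVars false

/-!
Extending an even subgraph of G/E(S) to an even subgraph of G, and local computations.
-/

namespace Pool.Agent.H164R5

open Finset
open Pool.Agent.Helper879.ECD (F2 IsFlow f2_add_self f2_cases)
open Pool.Agent.H126R2.CDC
open Pool.Agent.H126R2.CDC.MGraph

section

variable {W E : Type} [Fintype W] [DecidableEq W] [Fintype E] [DecidableEq E]

/-- a vector off `s` extends to a flow when it is orthogonal to all potentials constant on `s` -/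
lemma exists_ext (a b : E → W) (s T : E → F2)
    (hT : ∀ c : W → F2, (∀ e, s e = 1 → c (a e) = c (b e)) →
      ∑ e, (1 + s e) * T e * (c (a e) + c (b e)) = 0) :
    ∃ f : E → F2, IsFlow a b f ∧ ∀ e, s e = 0 → f e = T e := by
  classical
  let S : Submodule F2 (E → F2) :=
    { carrier := {X | ∃ f : E → F2, IsFlow a b f ∧ (fun e => (1 + s e) * f e) = X}
      zero_mem' := ⟨fun _ => 0, flow_zero a b, by ext e; simp⟩
      add_mem' := by
        rintro X Y ⟨f, hf, rfl⟩ ⟨g, hg, rfl⟩
        exact ⟨fun e => f e + g e, flow_add hf hg, by ext e; simp only [Pi.add_apply]; ring⟩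
      smul_mem' := by
        rintro r X ⟨f, hf, rfl⟩
        exact ⟨fun e => r * f e, flow_smul r hf, by
          ext e; simp only [Pi.smul_apply, smul_eq_mul]; ring⟩ }
  suffices h : (fun e => (1 + s e) * T e) ∈ S by
    obtain ⟨f, hf, hX⟩ := h
    refine ⟨f, hf, fun e he => ?_⟩
    have := congrFun hX e
    simpa [he] using this
  by_contra hcon
  obtain ⟨φ, hφ1, hφ2⟩ := Submodule.exists_dual_map_eq_bot_of_notMem hcon inferInstance
  have hφ : ∀ X ∈ S, φ X = 0 := by
    intro X hX
    have : φ X ∈ S.map φ := Submodule.mem_map_of_mem hX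
    rw [hφ2] at this
    exact (Submodule.mem_bot F2).1 this
  obtain ⟨c, hc⟩ := mem_cob_of_orth a b (fun e => (1 + s e) * φ (Pi.single e 1)) (by
    intro B hB
    have := hφ _ ⟨B, hB, rfl⟩
    rw [functional_eq] at this
    rw [← this]
    apply Finset.sum_congr rfl
    intro e _
    ring)
  apply hφ1
  rw [functional_eq, ← hT c (fun e he => by
    have := hc e
    rw [he] at this
    have h0 : ∀ u v p : F2, (1 + 1) * p = u + v → u = v := by decide
    exact h0 _ _ _ this)]
  apply Finset.sum_congr rfl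
  intro e _
  rw [← hc e]
  have h0 : ∀ u p q : F2, p * ((1 + u) * q) = (1 + u) * q * ((1 + u) * p) := by decide
  exact h0 _ _ _

end

section

variable {V E : Type} [Fintype V] [DecidableEq V] [Fintype E] [DecidableEq E]

lemma ext_set (G : MGraph V E) (v : E × Bool → V)
    (hv : ∀ e, G.ends e = s(v (e, false), v (e, true))) (S T : Finset E) (hTS : Disjoint T S)
    (hT : EvenMod G S T) :
    ∃ f : E → F2, IsFl v f ∧ ∀ e, e ∉ S → f e = if e ∈ T then 1 else 0 := by
  classical
  obtain ⟨f, hf1, hf2⟩ := exists_ext (fun e => v (e, false)) (fun e => v (e, true))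
    (fun e => if e ∈ S then 1 else 0) (fun e => if e ∈ T then 1 else 0) (by
      intro c hc
      have h1 := hT (univ.filter (fun w => c w = 1)) (by
        intro e he
        rw [crosses_iff G (hv e), not_not, Finset.mem_filter, Finset.mem_filter,
          hc e (by simp [he])]
        simp)
      rw [even_iff_cast, Finset.card_filter, Nat.cast_sum] at h1
      refine Eq.trans ?_ h1
      rw [← Finset.sum_subset (Finset.subset_univ T)]
      · apply Finset.sum_congr rfl
        intro e he
        have h2 : e ∉ S := Finset.disjoint_left.1 hTS he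
        rw [if_neg h2, if_pos he]
        simp only [crosses_iff G (hv e), Finset.mem_filter, Finset.mem_univ, true_and]
        have h3 : ∀ a b : F2, (1 + 0) * 1 * (a + b) =
            (((if ¬ (a = 1 ↔ b = 1) then 1 else 0 : ℕ)) : F2) := by decide
        exact h3 _ _
      · intro e _ he
        rw [if_neg he]
        ring)
  refine ⟨f, (isFl_iff v f).2 hf1, fun e he => hf2 e (by simp [he])⟩

/-- the three half-edges at a vertex -/
lemma three_halves (v : E × Bool → V) (hdeg : ∀ w, (univ.filter (fun h => v h = w)).card = 3)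
    (s : E → F2) (hs : IsFl v s) (w : V) : ∃ h1 h2 h3 : E × Bool, h1 ≠ h2 ∧ h1 ≠ h3 ∧ h2 ≠ h3 ∧
      univ.filter (fun h => v h = w) = {h1, h2, h3} ∧ s h3.1 = 0 ∧
      ((s h1.1 = 0 ∧ s h2.1 = 0) ∨ (s h1.1 = 1 ∧ s h2.1 = 1)) := by
  obtain ⟨p, q, r, hpq, hpr, hqr, hH⟩ := Finset.card_eq_three.1 (hdeg w)
  have h0 := hs w
  rw [← Finset.sum_filter, hH, Finset.sum_insert (by simp [hpq, hpr]), Finset.sum_pair hqr] at h0
  rcases f2_cases (s p.1) with sp | sp <;> rcases f2_cases (s q.1) with sq | sq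
  · rw [sp, sq] at h0
    exact ⟨p, q, r, hpq, hpr, hqr, hH, by simpa using h0, Or.inl ⟨sp, sq⟩⟩
  · rw [sp, sq] at h0
    have h1 : ∀ u : F2, 0 + (1 + u) = 0 → u = 1 := by decide
    refine ⟨q, r, p, hqr, Ne.symm hpq, Ne.symm hpr, ?_, sp, Or.inr ⟨sq, h1 _ h0⟩⟩
    rw [hH]; ext x; simp only [Finset.mem_insert, Finset.mem_singleton]; tauto
  · rw [sp, sq] at h0
    have h1 : ∀ u : F2, 1 + (0 + u) = 0 → u = 1 := by decide
    refine ⟨p, r, q, hpr, hpq, Ne.symm hqr, ?_, sq, Or.inr ⟨sp, h1 _ h0⟩⟩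
    rw [hH]; ext x; simp only [Finset.mem_insert, Finset.mem_singleton]; tauto
  · rw [sp, sq] at h0
    have h1 : ∀ u : F2, 1 + (1 + u) = 0 → u = 0 := by decide
    exact ⟨p, q, r, hpq, hpr, hqr, hH, h1 _ h0, Or.inr ⟨sp, sq⟩⟩

theorem loc1 : ∀ a c : F4,
    (⟨a.x * a.y + ((a + c).x * (a + c).y + c.x * c.y), 0⟩ : F4) = a * c ^ 2 + a ^ 2 * c := by
  decide

theorem loc0 : ∀ x p q : F4, p ≠ 0 → q ≠ 0 → p + q ≠ 0 →
    (⟨(x * p).x * (x * p).y + ((x * q).x * (x * q).y + (x * (p + q)).x * (x * (p + q)).y), 0⟩ : F4)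
      = x ^ 3 := by
  decide

end

end Pool.Agent.H164R5
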