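import Pool.Agent.H164R5.Units

set_option autoImplicit false
set_option linter.unusedSectionVars false
set_option linter.unusedSimpArgs false

/-!
At most four bridges.
-/

namespace Pool.Agent.H164R5

open Finset Matrix
open Pool.Agent.Helper879.ECD (F2 IsFlow f2_add_self f2_cases)
open Pool.Agent.H126R2.CDC
open Pool.Agent.H126R2.CDC.MGraph

section

variable {V E : Type} [Fintype V] [DecidableEq V] [Fintype E] [DecidableEq E]
variable {ι : Type} [Fintype ι] [DecidableEq ι]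

lemma isFl_add {v : E × Bool → V} {x y : E → F2} (hx : IsFl v x) (hy : IsFl v y) :
    IsFl v (fun e => x e + y e) :=
  (isFl_iff v _).2 (flow_add ((isFl_iff v _).1 hx) ((isFl_iff v _).1 hy))

/-- (α, β) splits along the union of the classes in J -/
def Sp (v : E × Bool → V) (S : Finset E) (κ : V → ι) (α β : E → F2)
    (J : Finset (ι)) : Prop :=
  (∀ e, e ∉ S → (κ (v (e, false)) ∈ J ↔ κ (v (e, true)) ∈ J)) ∧
    ∃ P Q : E → F2, IsFl v P ∧ IsFl v Q ∧ ∀ e, e ∉ S →
      P e = (if κ (v (e, false)) ∈ J then α e else 0) ∧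
      Q e = (if κ (v (e, false)) ∈ J then β e else 0)

/-- the parity of the pair (α, β) at J -/
def T (v : E × Bool → V) (κ : V → ι) (α β : E → F2) (J : Finset (ι)) : F2 :=
  ∑ e, α e * β e * ((if κ (v (e, false)) ∈ J then 1 else 0) +
    (if κ (v (e, true)) ∈ J then 1 else 0))

lemma sp_univ {v : E × Bool → V} {S : Finset E} {κ : V → ι} {α β : E → F2}
    (hα : IsFl v α) (hβ : IsFl v β) : Sp v S κ α β univ :=
  ⟨fun e _ => by simp, α, β, hα, hβ, fun e _ => by simp⟩

lemma sp_symm {v : E × Bool → V} {S : Finset E} {κ : V → ι} {α β : E → F2}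
    {J K : Finset (ι)} (hJ : Sp v S κ α β J) (hK : Sp v S κ α β K) :
    Sp v S κ α β (symmDiff J K) := by
  obtain ⟨h1, P, Q, hP, hQ, h2⟩ := hJ
  obtain ⟨h3, P', Q', hP', hQ', h4⟩ := hK
  refine ⟨fun e he => ?_, fun e => P e + P' e, fun e => Q e + Q' e, isFl_add hP hP',
    isFl_add hQ hQ', fun e he => ?_⟩
  · have e1 := h1 e he
    have e2 := h3 e he
    rw [Finset.mem_symmDiff, Finset.mem_symmDiff]
    tauto
  · beta_reduce
    rw [(h2 e he).1, (h2 e he).2, (h4 e he).1, (h4 e he).2]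
    by_cases a1 : κ (v (e, false)) ∈ J <;> by_cases a2 : κ (v (e, false)) ∈ K <;>
      simp [a1, a2, Finset.mem_symmDiff, f2_add_self]

lemma sp_compl {v : E × Bool → V} {S : Finset E} {κ : V → ι} {α β : E → F2}
    (hα : IsFl v α) (hβ : IsFl v β) {J : Finset (ι)} (hJ : Sp v S κ α β J) :
    Sp v S κ α β Jᶜ := by
  have := sp_symm (sp_univ (κ := κ) (S := S) hα hβ) hJ
  have h : symmDiff univ J = Jᶜ := by ext j; simp [Finset.mem_symmDiff]
  rwa [h] at this

/-- T as a sum over vertices -/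
lemma T_eq (v : E × Bool → V) (κ : V → ι) (α β : E → F2) (J : Finset (ι)) :
    T v κ α β J = ∑ w, (if κ w ∈ J then (1 : F2) else 0) *
      ∑ h : E × Bool, (if v h = w then α h.1 * β h.1 else 0) := by
  have e2 : ∑ w, (if κ w ∈ J then (1 : F2) else 0) *
      ∑ h : E × Bool, (if v h = w then α h.1 * β h.1 else 0) =
      ∑ h : E × Bool, α h.1 * β h.1 * (if κ (v h) ∈ J then 1 else 0) := by
    simp only [Finset.mul_sum]
    rw [Finset.sum_comm]
    apply Finset.sum_congr rfl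
    intro h _
    simp only [mul_ite, mul_zero, Finset.sum_ite_eq, Finset.mem_univ, if_true]
    by_cases h4 : κ (v h) ∈ J <;> simp [h4]
  rw [e2, Fintype.sum_prod_type]
  unfold T
  apply Finset.sum_congr rfl
  intro e _
  rw [Fintype.sum_bool]
  ring

/-- two flows vanishing off S at a vertex -/
lemma local_zero (v : E × Bool → V) (hdeg : ∀ w, (univ.filter (fun h => v h = w)).card = 3)
    (S : Finset E) (hS : IsFl v (fun e => if e ∈ S then (1 : F2) else 0)) (f g : E → F2)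
    (hf : IsFl v f) (hg : IsFl v g) (w : V)
    (h0 : ∀ h : E × Bool, v h = w → h.1 ∉ S → f h.1 = 0 ∧ g h.1 = 0) :
    ∑ h : E × Bool, (if v h = w then f h.1 * g h.1 else 0) = 0 := by
  obtain ⟨h1, h2, h3, h12, h13, h23, hH, hs3, hs12⟩ := three_halves v hdeg _ hS w
  have hsum3 : ∀ (g : E → F2), ∑ h : E × Bool, (if v h = w then g h.1 else 0) =
        g h1.1 + (g h2.1 + g h3.1) := by
    intro g
    rw [← Finset.sum_filter, hH, Finset.sum_insert (by simp [h12, h13]),
      Finset.sum_pair h23]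
  have hvh : ∀ h ∈ ({h1, h2, h3} : Finset (E × Bool)), v h = w := by
    intro h hh
    rw [← hH] at hh
    exact (Finset.mem_filter.1 hh).2
  have e1 := hf w
  have e2 := hg w
  rw [hsum3] at e1 e2
  rw [hsum3 (fun e => f e * g e)]
  have h3S : h3.1 ∉ S := by intro h; simp [h] at hs3
  obtain ⟨f3, g3⟩ := h0 h3 (hvh h3 (by simp)) h3S
  rw [f3, add_zero] at e1
  rw [g3, add_zero] at e2
  have e3 := f2_eq_of_add e1
  have e4 := f2_eq_of_add e2
  rw [e3, e4, f3, zero_mul, add_zero]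
  exact f2_add_self _

/-- rotations along J and their parities -/
lemma rot (v : E × Bool → V) (hdeg : ∀ w, (univ.filter (fun h => v h = w)).card = 3)
    (S : Finset E) (hS : IsFl v (fun e => if e ∈ S then (1 : F2) else 0)) (κ : V → ι)
    (α β : E → F2) (hα : IsFl v α) (hβ : IsFl v β) (J : Finset (ι)) (hJ : Sp v S κ α β J) :
    ∃ α1 β1 α2 β2 : E → F2, IsFl v α1 ∧ IsFl v β1 ∧ IsFl v α2 ∧ IsFl v β2 ∧
      (∀ e, e ∉ S → α1 e = (if κ (v (e, false)) ∈ J then β e else α e) ∧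
        β1 e = (if κ (v (e, false)) ∈ J then α e + β e else β e)) ∧
      (∀ e, e ∉ S → α2 e = (if κ (v (e, false)) ∈ J then α e + β e else α e) ∧
        β2 e = (if κ (v (e, false)) ∈ J then α e else β e)) ∧
      T v κ α β J + T v κ α1 β1 J + T v κ α2 β2 J = 0 := by
  obtain ⟨hcl, P, Q, hP, hQ, hPQ⟩ := hJ
  have hκh : ∀ h : E × Bool, h.1 ∉ S → (κ (v h) ∈ J ↔ κ (v (h.1, false)) ∈ J) := by
    rintro ⟨e, b⟩ he
    cases b
    · exact Iff.rfl
    · exact (hcl e he).symm
  refine ⟨fun e => (α e + P e) + Q e, fun e => β e + P e, fun e => α e + Q e,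
    fun e => (β e + P e) + Q e, isFl_add (isFl_add hα hP) hQ, isFl_add hβ hP, isFl_add hα hQ,
    isFl_add (isFl_add hβ hP) hQ, fun e he => ?_, fun e he => ?_, ?_⟩
  · beta_reduce
    rw [(hPQ e he).1, (hPQ e he).2]
    generalize α e = a, β e = b
    by_cases a1 : κ (v (e, false)) ∈ J <;> simp only [a1, if_true, if_false] <;> revert a b <;>
      decide
  · beta_reduce
    rw [(hPQ e he).1, (hPQ e he).2]
    generalize α e = a, β e = b
    by_cases a1 : κ (v (e, false)) ∈ J <;> simp only [a1, if_true, if_false] <;> revert a b <;>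
      decide
  · -- parity
    have t1 : T v κ P Q J = 0 := by
      have htot : ∑ w, ∑ h : E × Bool, (if v h = w then P h.1 * Q h.1 else 0) = 0 := by
        rw [Finset.sum_comm]
        simp only [Finset.sum_ite_eq, Finset.mem_univ, if_true]
        rw [Fintype.sum_prod_type]
        refine Finset.sum_eq_zero fun e _ => ?_
        rw [Fintype.sum_bool]
        exact f2_add_self _
      rw [T_eq]
      refine Eq.trans ?_ htot
      apply Finset.sum_congr rfl
      intro w _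
      by_cases hw : κ w ∈ J
      · rw [if_pos hw, one_mul]
      · rw [if_neg hw, zero_mul]
        symm
        apply local_zero v hdeg S hS P Q hP hQ w
        intro h hh hS'
        have h5 : κ (v (h.1, false)) ∉ J := by rw [← hκh h hS', hh]; exact hw
        rw [(hPQ _ hS').1, (hPQ _ hS').2, if_neg h5, if_neg h5]
        exact ⟨rfl, rfl⟩
    have t2 : T v κ (fun e => α e + P e) (fun e => β e + Q e) J = 0 := by
      rw [T_eq]
      refine Finset.sum_eq_zero fun w _ => ?_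
      by_cases hw : κ w ∈ J
      · rw [local_zero v hdeg S hS _ _ (isFl_add hα hP) (isFl_add hβ hQ) w, mul_zero]
        intro h hh hS'
        have h5 : κ (v (h.1, false)) ∈ J := by rw [← hκh h hS', hh]; exact hw
        rw [(hPQ _ hS').1, (hPQ _ hS').2, if_pos h5, if_pos h5]
        exact ⟨f2_add_self _, f2_add_self _⟩
      · rw [if_neg hw, zero_mul]
    have t3 : ∀ R : E → F2, IsFl v R → T v κ R R J = 0 := by
      intro R hR
      have h5 := (isFl_iff v R).1 hR (fun w => if κ w ∈ J then 1 else 0)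
      unfold T
      refine Eq.trans ?_ h5
      apply Finset.sum_congr rfl
      intro e _
      have : ∀ a : F2, a * a = a := by decide
      rw [this]
    have key : T v κ α β J + T v κ (fun e => (α e + P e) + Q e) (fun e => β e + P e) J +
        T v κ (fun e => α e + Q e) (fun e => (β e + P e) + Q e) J =
        T v κ P Q J + T v κ (fun e => α e + P e) (fun e => β e + Q e) J +
        T v κ P P J + T v κ Q Q J := by
      unfold T
      rw [← Finset.sum_add_distrib, ← Finset.sum_add_distrib, ← Finset.sum_add_distrib,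
        ← Finset.sum_add_distrib, ← Finset.sum_add_distrib]
      apply Finset.sum_congr rfl
      intro e _
      beta_reduce
      generalize ((if κ (v (e, false)) ∈ J then (1 : F2) else 0) +
        (if κ (v (e, true)) ∈ J then 1 else 0)) = c
      generalize α e = a, β e = b, P e = p, Q e = q
      revert a b p q c
      decide
    rw [key, t1, t2, t3 P hP, t3 Q hQ]
    decide

/-- the off-S relations of a rotation of the classes in J (either of the two) -/
def Rel (v : E × Bool → V) (S : Finset E) (κ : V → ι) (J : Finset (ι))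
    (α β α' β' : E → F2) : Prop :=
  (∀ e, e ∉ S → α' e = (if κ (v (e, false)) ∈ J then β e else α e) ∧
        β' e = (if κ (v (e, false)) ∈ J then α e + β e else β e)) ∨
  (∀ e, e ∉ S → α' e = (if κ (v (e, false)) ∈ J then α e + β e else α e) ∧
        β' e = (if κ (v (e, false)) ∈ J then α e else β e))

lemma rel_single {v : E × Bool → V} {S : Finset E} {κ : V → ι} {J : Finset (ι)}
    {α β α' β' : E → F2} (hR : Rel v S κ J α β α' β') (j : ι)
    (h : Sp v S κ α' β' {j}) : Sp v S κ α β {j} := by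
  obtain ⟨hcl, P, Q, hP, hQ, hPQ⟩ := h
  by_cases hj : j ∈ J
  · rcases hR with hR | hR
    · refine ⟨hcl, fun e => P e + Q e, P, isFl_add hP hQ, hP, fun e he => ?_⟩
      beta_reduce
      rw [(hPQ e he).1, (hPQ e he).2, (hR e he).1, (hR e he).2]
      by_cases hk : κ (v (e, false)) = j
      · simp only [hk, hj, Finset.mem_singleton, if_true]
        have : ∀ a b : F2, b + (a + b) = a := by decide
        exact ⟨this _ _, trivial⟩
      · simp [hk]
    · refine ⟨hcl, Q, fun e => P e + Q e, hQ, isFl_add hP hQ, fun e he => ?_⟩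
      beta_reduce
      rw [(hPQ e he).1, (hPQ e he).2, (hR e he).1, (hR e he).2]
      by_cases hk : κ (v (e, false)) = j
      · simp only [hk, hj, Finset.mem_singleton, if_true]
        have : ∀ a b : F2, a + b + a = b := by decide
        exact ⟨trivial, this _ _⟩
      · simp [hk]
  · refine ⟨hcl, P, Q, hP, hQ, fun e he => ?_⟩
    rw [(hPQ e he).1, (hPQ e he).2]
    by_cases hk : κ (v (e, false)) = j
    · rcases hR with hR | hR
      · rw [(hR e he).1, (hR e he).2]
        simp [hk, hj]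
      · rw [(hR e he).1, (hR e he).2]
        simp [hk, hj]
    · simp [hk]

lemma rel_self {v : E × Bool → V} {S : Finset E} {κ : V → ι} {J : Finset (ι)}
    {α β α' β' : E → F2} (hR : Rel v S κ J α β α' β') (h : Sp v S κ α β J) :
    Sp v S κ α' β' J := by
  obtain ⟨hcl, P, Q, hP, hQ, hPQ⟩ := h
  rcases hR with hR | hR
  · refine ⟨hcl, Q, fun e => P e + Q e, hQ, isFl_add hP hQ, fun e he => ?_⟩
    beta_reduce
    rw [(hPQ e he).1, (hPQ e he).2, (hR e he).1, (hR e he).2]
    by_cases hk : κ (v (e, false)) ∈ J <;> simp [hk]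
  · refine ⟨hcl, fun e => P e + Q e, P, isFl_add hP hQ, hP, fun e he => ?_⟩
    beta_reduce
    rw [(hPQ e he).1, (hPQ e he).2, (hR e he).1, (hR e he).2]
    by_cases hk : κ (v (e, false)) ∈ J <;> simp [hk]

lemma rel_mix {v : E × Bool → V} {S : Finset E} {κ : V → ι} {J : Finset (ι)}
    {α β α' β' : E → F2} (hR : Rel v S κ J α β α' β') (hJ : Sp v S κ α β J) (K : Finset (ι))
    (h : Sp v S κ α β K) (h' : Sp v S κ α' β' K) : Sp v S κ α β (K ∩ J) := by
  obtain ⟨hclJ, _⟩ := hJ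
  obtain ⟨hcl, P, Q, hP, hQ, hPQ⟩ := h
  obtain ⟨_, P', Q', hP', hQ', hPQ'⟩ := h'
  have hcl2 : ∀ e, e ∉ S → (κ (v (e, false)) ∈ K ∩ J ↔ κ (v (e, true)) ∈ K ∩ J) := by
    intro e he
    have e1 := hclJ e he
    have e2 := hcl e he
    rw [Finset.mem_inter, Finset.mem_inter]
    tauto
  rcases hR with hR | hR
  · refine ⟨hcl2, fun e => Q e + Q' e, fun e => (P e + P' e) + (Q e + Q' e), isFl_add hQ hQ',
      isFl_add (isFl_add hP hP') (isFl_add hQ hQ'), fun e he => ?_⟩
    beta_reduce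
    rw [(hPQ e he).1, (hPQ e he).2, (hPQ' e he).1, (hPQ' e he).2, (hR e he).1, (hR e he).2]
    generalize α e = a, β e = b
    by_cases hk : κ (v (e, false)) ∈ J <;> by_cases hk2 : κ (v (e, false)) ∈ K <;>
      simp only [hk, hk2, Finset.mem_inter, and_self, and_true, and_false, if_true, if_false,
        true_and, false_and] <;> revert a b <;> decide
  · refine ⟨hcl2, fun e => (P e + P' e) + (Q e + Q' e), fun e => P e + P' e,
      isFl_add (isFl_add hP hP') (isFl_add hQ hQ'), isFl_add hP hP', fun e he => ?_⟩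
    beta_reduce
    rw [(hPQ e he).1, (hPQ e he).2, (hPQ' e he).1, (hPQ' e he).2, (hR e he).1, (hR e he).2]
    generalize α e = a, β e = b
    by_cases hk : κ (v (e, false)) ∈ J <;> by_cases hk2 : κ (v (e, false)) ∈ K <;>
      simp only [hk, hk2, Finset.mem_inter, and_self, and_true, and_false, if_true, if_false,
        true_and, false_and] <;> revert a b <;> decide

lemma step (v : E × Bool → V) (hdeg : ∀ w, (univ.filter (fun h => v h = w)).card = 3)
    (S : Finset E) (hS : IsFl v (fun e => if e ∈ S then (1 : F2) else 0)) (κ : V → ι)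
    (α β : E → F2) (hα : IsFl v α) (hβ : IsFl v β) (hcov : ∀ e, e ∉ S → α e ≠ 0 ∨ β e ≠ 0)
    (hno : ∀ j, ¬ Sp v S κ α β {j}) (J : Finset (ι)) (hJ : Sp v S κ α β J)
    (hpar : T v κ α β J = 1) :
    ∃ α' β' : E → F2, IsFl v α' ∧ IsFl v β' ∧ (∀ e, e ∉ S → α' e ≠ 0 ∨ β' e ≠ 0) ∧
      (∀ j, ¬ Sp v S κ α' β' {j}) ∧ Sp v S κ α' β' J ∧ T v κ α' β' J = 0 ∧
      ∀ K, Sp v S κ α β K → Sp v S κ α' β' K → Sp v S κ α β (K ∩ J) := by
  obtain ⟨α1, β1, α2, β2, hα1, hβ1, hα2, hβ2, hR1, hR2, ht⟩ := rot v hdeg S hS κ α β hα hβ J hJ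
  rw [hpar] at ht
  have hcase : ∀ a b : F2, 1 + a + b = 0 → a = 0 ∨ b = 0 := by decide
  have c1 : ∀ a b : F2, a ≠ 0 ∨ b ≠ 0 → b ≠ 0 ∨ a + b ≠ 0 := by decide
  have c2 : ∀ a b : F2, a ≠ 0 ∨ b ≠ 0 → a + b ≠ 0 ∨ a ≠ 0 := by decide
  rcases hcase _ _ ht with h | h
  · have hR : Rel v S κ J α β α1 β1 := Or.inl hR1
    refine ⟨α1, β1, hα1, hβ1, fun e he => ?_, fun j hj => hno j (rel_single hR j hj),
      rel_self hR hJ, h, fun K hK hK' => rel_mix hR hJ K hK hK'⟩
    rw [(hR1 e he).1, (hR1 e he).2]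
    by_cases hk : κ (v (e, false)) ∈ J
    · simp only [hk, if_true]; exact c1 _ _ (hcov e he)
    · simp only [hk, if_false]; exact hcov e he
  · have hR : Rel v S κ J α β α2 β2 := Or.inr hR2
    refine ⟨α2, β2, hα2, hβ2, fun e he => ?_, fun j hj => hno j (rel_single hR j hj),
      rel_self hR hJ, h, fun K hK hK' => rel_mix hR hJ K hK hK'⟩
    rw [(hR2 e he).1, (hR2 e he).2]
    by_cases hk : κ (v (e, false)) ∈ J
    · simp only [hk, if_true]; exact c2 _ _ (hcov e he)
    · simp only [hk, if_false]; exact hcov e he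

lemma T_compl (v : E × Bool → V) (κ : V → ι) (α β : E → F2) (J : Finset (ι)) :
    T v κ α β Jᶜ = T v κ α β J := by
  unfold T
  apply Finset.sum_congr rfl
  intro e _
  generalize α e * β e = a
  by_cases h1 : κ (v (e, false)) ∈ J <;> by_cases h2 : κ (v (e, true)) ∈ J <;>
    simp only [h1, h2, Finset.mem_compl, not_true_eq_false, not_false_eq_true, if_true,
      if_false] <;> revert a <;> decide

/-- no own bridge: some rotated pair has only even splittings -/
lemma no_own (v : E × Bool → V) (hdeg : ∀ w, (univ.filter (fun h => v h = w)).card = 3)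
    (S : Finset E) (hS : IsFl v (fun e => if e ∈ S then (1 : F2) else 0)) (κ : V → Fin 4)
    (α β : E → F2) (hα : IsFl v α) (hβ : IsFl v β) (hcov : ∀ e, e ∉ S → α e ≠ 0 ∨ β e ≠ 0)
    (hno : ∀ j, ¬ Sp v S κ α β {j}) :
    ∃ α' β' : E → F2, IsFl v α' ∧ IsFl v β' ∧ (∀ e, e ∉ S → α' e ≠ 0 ∨ β' e ≠ 0) ∧
      ∀ K, Sp v S κ α' β' K → K = ∅ ∨ K = univ ∨ T v κ α' β' K = 0 := by
  by_contra hcon
  have hbad : ∀ α' β' : E → F2, IsFl v α' → IsFl v β' → (∀ e, e ∉ S → α' e ≠ 0 ∨ β' e ≠ 0) →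
      ∃ K, Sp v S κ α' β' K ∧ K ≠ ∅ ∧ K ≠ univ ∧ T v κ α' β' K = 1 := by
    intro α' β' h1 h2 h3
    by_contra h4
    apply hcon
    refine ⟨α', β', h1, h2, h3, fun K hK => ?_⟩
    by_contra h5
    rw [not_or, not_or] at h5
    exact h4 ⟨K, hK, h5.1, h5.2.1, (f2_cases _).resolve_left h5.2.2⟩
  -- pairs
  have hpair : ∀ α' β' : E → F2, IsFl v α' → IsFl v β' → (∀ j, ¬ Sp v S κ α' β' {j}) →
      ∀ K, Sp v S κ α' β' K → K ≠ ∅ → K ≠ univ → K.card = 2 := by
    intro α' β' h1 h2 h3 K hK hK1 hK2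
    have e1 : ∀ K : Finset (Fin 4), K ≠ ∅ → K ≠ univ → K.card = 2 ∨ (∃ j, K = {j}) ∨
        ∃ j, Kᶜ = {j} := by decide
    rcases e1 K hK1 hK2 with h | ⟨j, h⟩ | ⟨j, h⟩
    · exact h
    · exact absurd (h ▸ hK) (h3 j)
    · have h4 := sp_compl h1 h2 hK
      rw [h] at h4
      exact absurd h4 (h3 j)
  obtain ⟨K1, hK1, hK1a, hK1b, hK1c⟩ := hbad α β hα hβ hcov
  obtain ⟨a1, b1, ha1, hb1, hc1, hn1, hs1, ht1, _⟩ := step v hdeg S hS κ α β hα hβ hcov hno K1
    hK1 hK1c
  obtain ⟨K2, hK2, hK2a, hK2b, hK2c⟩ := hbad a1 b1 ha1 hb1 hc1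
  obtain ⟨a2, b2, ha2, hb2, hc2, hn2, hs2, ht2, hmix⟩ := step v hdeg S hS κ a1 b1 ha1 hb1 hc1 hn1
    K2 hK2 hK2c
  obtain ⟨K3, hK3, hK3a, hK3b, hK3c⟩ := hbad a2 b2 ha2 hb2 hc2
  have c1 := hpair a1 b1 ha1 hb1 hn1 K1 hs1 hK1a hK1b
  have c2 := hpair a1 b1 ha1 hb1 hn1 K2 hK2 hK2a hK2b
  have c3 := hpair a2 b2 ha2 hb2 hn2 K3 hK3 hK3a hK3b
  have n1 : K2 ≠ K1 := by
    intro h; rw [h, ht1] at hK2c; exact absurd hK2c (by decide)
  have n2 : K2 ≠ K1ᶜ := by
    intro h; rw [h, T_compl, ht1] at hK2c; exact absurd hK2c (by decide)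
  have n3 : K3 ≠ K2 := by
    intro h; rw [h, ht2] at hK3c; exact absurd hK3c (by decide)
  have n4 : K3 ≠ K2ᶜ := by
    intro h; rw [h, T_compl, ht2] at hK3c; exact absurd hK3c (by decide)
  -- K3 splits the second pair as well
  have e2 : ∀ K1 K2 K3 : Finset (Fin 4), K1.card = 2 → K2.card = 2 → K3.card = 2 → K2 ≠ K1 →
      K2 ≠ K1ᶜ → K3 ≠ K2 → K3 ≠ K2ᶜ → (K3 = K1 ∨ K3 = K1ᶜ ∨ K3 = symmDiff K1 K2 ∨
        K3 = (symmDiff K1 K2)ᶜ) ∧ ∃ j, K3 ∩ K2 = {j} := by
    decide +kernel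
  obtain ⟨h5, j, hj⟩ := e2 K1 K2 K3 c1 c2 c3 n1 n2 n3 n4
  have h6 : Sp v S κ a1 b1 K3 := by
    rcases h5 with h | h | h | h
    · rw [h]; exact hs1
    · rw [h]; exact sp_compl ha1 hb1 hs1
    · rw [h]; exact sp_symm hs1 hK2
    · rw [h]; exact sp_compl ha1 hb1 (sp_symm hs1 hK2)
  have h7 := hmix K3 h6 hK3
  rw [hj] at h7
  exact hn1 j h7

end

end Pool.Agent.H164R5
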