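import Pool.Agent.H164R5.Four

set_option autoImplicit false
set_option linter.unusedSectionVars false
set_option linter.unusedSimpArgs false

/-!
Circuit double covers containing a 2-regular subgraph with at most four bridges.
-/

namespace Pool.Agent.H164R5

open Finset Matrix
open Pool.Agent.Helper879.ECD (F2 IsFlow f2_add_self f2_cases)
open Pool.Agent.H126R2.CDC
open Pool.Agent.H126R2.CDC.MGraph

section

variable {V E : Type} [Fintype V] [DecidableEq V] [Fintype E] [DecidableEq E]
variable {ι : Type} [Fintype ι] [DecidableEq ι]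

/-- indicator -/
def ind (D : Finset E) (e : E) : F2 := if e ∈ D then 1 else 0

lemma chain_mem (G : MGraph V E) (S : Finset E) (X : Finset V)
    (hX : ∀ e, e ∉ S → ¬ Crosses G X e) (u w : V)
    (h : Relation.ReflTransGen (fun a b => ∃ e, e ∉ S ∧ a ∈ G.ends e ∧ b ∈ G.ends e) u w) :
    u ∈ X → w ∈ X := by
  induction h with
  | refl => exact id
  | @tail b c _ hbc ih =>
    intro hu
    obtain ⟨e, he, hb, hc⟩ := hbc
    by_contra hcX
    exact hX e he ⟨⟨b, hb, ih hu⟩, c, hc, hcX⟩

lemma closed_union (G : MGraph V E) (S : Finset E) (κ : V → ι)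
    (hκ : ∀ u w, κ u = κ w → Relation.ReflTransGen
      (fun a b => ∃ e, e ∉ S ∧ a ∈ G.ends e ∧ b ∈ G.ends e) u w)
    (X : Finset V) (hX : ∀ e, e ∉ S → ¬ Crosses G X e) :
    ∃ J : Finset (ι), ∀ w, w ∈ X ↔ κ w ∈ J := by
  classical
  refine ⟨univ.filter (fun j => ∃ w ∈ X, κ w = j), fun w => ⟨fun hw => ?_, fun hw => ?_⟩⟩
  · rw [Finset.mem_filter]
    exact ⟨Finset.mem_univ _, w, hw, rfl⟩
  · rw [Finset.mem_filter] at hw
    obtain ⟨_, u, hu, huw⟩ := hw
    exact chain_mem G S X hX u w (hκ u w huw) hu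

lemma sp_of_splits (G : MGraph V E) (v : E × Bool → V)
    (hv : ∀ e, G.ends e = s(v (e, false), v (e, true))) (S A B : Finset E) (κ : V → ι)
    (X : Finset V) (J : Finset (ι)) (hXJ : ∀ w, w ∈ X ↔ κ w ∈ J)
    (h : SplitsAlong G S A B X) : Sp v S κ (ind A) (ind B) J := by
  classical
  have hcl : ∀ e, e ∉ S → (κ (v (e, false)) ∈ J ↔ κ (v (e, true)) ∈ J) := by
    intro e he
    have := h.1 e he
    rw [crosses_iff G (hv e), not_not, hXJ, hXJ] at this
    exact this
  obtain ⟨P, hP1, hP2⟩ := ext_set G v hv S _ (by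
      rw [Finset.disjoint_left]
      intro e he
      exact (Finset.mem_sdiff.1 (Finset.mem_filter.1 he).1).2) h.2.1
  obtain ⟨Q, hQ1, hQ2⟩ := ext_set G v hv S _ (by
      rw [Finset.disjoint_left]
      intro e he
      exact (Finset.mem_sdiff.1 (Finset.mem_filter.1 he).1).2) h.2.2
  refine ⟨hcl, P, Q, hP1, hQ1, fun e he => ?_⟩
  have h4 := hcl e he
  rw [hP2 e he, hQ2 e he]
  simp only [Finset.mem_filter, Finset.mem_sdiff, he, not_false_eq_true, and_true,
    inside_iff G (hv e), hXJ, ind]
  by_cases h5 : κ (v (e, false)) ∈ J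
  · have h6 := h4.1 h5
    simp [h5, h6]
  · simp [h5]

lemma splits_of_sp (G : MGraph V E) (v : E × Bool → V)
    (hv : ∀ e, G.ends e = s(v (e, false), v (e, true))) (S A B : Finset E) (κ : V → ι)
    (X : Finset V) (J : Finset (ι)) (hXJ : ∀ w, w ∈ X ↔ κ w ∈ J)
    (h : Sp v S κ (ind A) (ind B) J) : SplitsAlong G S A B X := by
  classical
  obtain ⟨hcl, P, Q, hP, hQ, hPQ⟩ := h
  have key : ∀ (D : Finset E) (R : E → F2), IsFl v R →
      (∀ e, e ∉ S → R e = if κ (v (e, false)) ∈ J then ind D e else 0) →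
      EvenMod G S ((D \ S).filter fun e => Inside G X e) := by
    intro D R hR hRD U hU
    rw [even_iff_cast, Finset.card_filter, Nat.cast_sum, Finset.sum_filter]
    have h1 := (isFl_iff v R).1 hR (fun w => if w ∈ U then 1 else 0)
    refine Eq.trans ?_ h1
    rw [← Finset.sum_subset (Finset.subset_univ (D \ S))]
    · apply Finset.sum_congr rfl
      intro e he
      rw [Finset.mem_sdiff] at he
      have h2 := hcl e he.2
      beta_reduce
      rw [hRD e he.2]
      simp only [crosses_iff G (hv e), inside_iff G (hv e), hXJ, ind, he.1, if_true]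
      by_cases h3 : κ (v (e, false)) ∈ J
      · have h4 := h2.1 h3
        by_cases h5 : v (e, false) ∈ U <;> by_cases h6 : v (e, true) ∈ U <;>
          simp only [h3, h4, h5, h6, and_self, if_true, if_false] <;> decide
      · simp [h3]
    · intro e _ he
      beta_reduce
      by_cases heS : e ∈ S
      · have h3 := hU e heS
        rw [crosses_iff G (hv e), not_not] at h3
        by_cases h5 : v (e, false) ∈ U
        · rw [if_pos h5, if_pos (h3.1 h5), f2_add_self, mul_zero]
        · rw [if_neg h5, if_neg (fun h => h5 (h3.2 h)), add_zero, mul_zero]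
      · have hD : e ∉ D := fun h => he (Finset.mem_sdiff.2 ⟨h, heS⟩)
        rw [hRD e heS]
        simp [ind, hD]
  refine ⟨?_, key A P hP (fun e he => (hPQ e he).1), key B Q hQ (fun e he => (hPQ e he).2)⟩
  intro e he
  rw [crosses_iff G (hv e), hXJ, hXJ, not_not]
  exact hcl e he

/-- a pair all of whose splittings are even -/
lemma good (G : MGraph V E) (hG : ∀ v, G.deg univ v = 3) (v : E × Bool → V)
    (hv : ∀ e, G.ends e = s(v (e, false), v (e, true))) (S : Finset E) (hS : G.IsEven S)
    (κ : V → ι)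
    (hκ : ∀ u w, κ u = κ w → Relation.ReflTransGen
      (fun a b => ∃ e, e ∉ S ∧ a ∈ G.ends e ∧ b ∈ G.ends e) u w)
    (α β : E → F2) (hα : IsFl v α) (hβ : IsFl v β) (hcov : ∀ e, e ∉ S → α e ≠ 0 ∨ β e ≠ 0)
    (h : ∀ K, Sp v S κ α β K → K = ∅ ∨ K = univ ∨ T v κ α β K = 0) :
    ∃ F : Multiset (Finset E), G.IsCDC F ∧ ∀ C, G.IsCircuit C → C ⊆ S → C ∈ F := by
  classical
  have hind : ∀ γ : E → F2, ind (univ.filter (fun e => γ e = 1)) = γ := by
    intro γ
    ext e
    unfold ind
    simp only [Finset.mem_filter, Finset.mem_univ, true_and]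
    rcases f2_cases (γ e) with h | h <;> rw [h] <;> decide
  have hev : ∀ γ : E → F2, IsFl v γ → G.IsEven (univ.filter (fun e => γ e = 1)) := by
    intro γ hγ
    rw [G.isEven_iff v hv]
    have := hind γ
    unfold ind at this
    rw [this]
    exact hγ
  have hne : ∀ a : F2, a ≠ 0 → a = 1 := by decide
  refine split_main G hG S ∅ (univ.filter (fun e => α e = 1)) (univ.filter (fun e => β e = 1))
    hS (fun w => by simp [MGraph.deg]) (Finset.disjoint_empty_right _) (hev α hα) (hev β hβ) ?_ ?_
  · intro e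
    by_cases he : e ∈ S
    · exact Or.inl he
    · right; right
      rcases hcov e he with h | h
      · left; simp [hne _ h]
      · right; simp [hne _ h]
  · intro X hX
    rw [Finset.union_empty] at hX
    obtain ⟨J, hJ⟩ := closed_union G S κ hκ X hX.1
    have hsp := sp_of_splits G v hv S _ _ κ X J hJ hX
    rw [hind, hind] at hsp
    rcases h J hsp with h1 | h1 | h1
    · left
      intro e _ hc
      rw [crosses_iff G (hv e), hJ, hJ, h1] at hc
      simp at hc
    · left
      intro e _ hc
      rw [crosses_iff G (hv e), hJ, hJ, h1] at hc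
      simp at hc
    · right
      rw [even_iff_cast]
      have h2' : {e | e ∈ univ.filter (fun e => α e = 1) ∧
          e ∈ univ.filter (fun e => β e = 1) ∧ Crosses G X e} =
          ((univ.filter (fun e => α e = 1 ∧ β e = 1 ∧ Crosses G X e) : Finset E) :
            Set E) := by
        ext e; simp
      rw [h2', Set.ncard_coe_finset, Finset.card_filter, Nat.cast_sum]
      refine Eq.trans ?_ h1
      unfold T
      apply Finset.sum_congr rfl
      intro e _
      simp only [crosses_iff G (hv e) X, hJ]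
      generalize α e = p, β e = q
      by_cases h4 : κ (v (e, false)) ∈ J <;> by_cases h5 : κ (v (e, true)) ∈ J <;>
        simp only [h4, h5, if_true, if_false] <;> revert p q <;> decide

lemma sp_owns {v : E × Bool → V} {S : Finset E} {κ : V → ι} {α β : E → F2}
    (hα : IsFl v α) (hβ : IsFl v β) (O : Finset (ι)) :
    (∀ j ∈ O, Sp v S κ α β {j}) → Sp v S κ α β O := by
  classical
  induction O using Finset.induction_on with
  | empty =>
    intro _
    have := sp_symm (sp_univ (κ := κ) (S := S) hα hβ) (sp_univ hα hβ)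
    simpa using this
  | insert j O hj ih =>
    intro h
    have h1 := sp_symm (h j (Finset.mem_insert_self _ _))
      (ih (fun i hi => h i (Finset.mem_insert_of_mem hi)))
    have h2 : symmDiff {j} O = insert j O := by
      ext i
      rw [Finset.mem_symmDiff, Finset.mem_insert, Finset.mem_singleton]
      by_cases hi : i = j
      · subst hi; simp [hj]
      · simp [hi]
    rwa [h2] at h1

/-- invariance of own classes under partwise rotations -/
lemma single_rot {v : E × Bool → V} {S : Finset E} {κ : V → ι} {α β α' β' : E → F2}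
    (j : ι) (r : Fin 3)
    (hr : ∀ e, e ∉ S → κ (v (e, false)) = j →
      (r = 0 → α' e = α e ∧ β' e = β e) ∧ (r = 1 → α' e = β e ∧ β' e = α e + β e) ∧
      (r = 2 → α' e = α e + β e ∧ β' e = α e)) :
    Sp v S κ α' β' {j} ↔ Sp v S κ α β {j} := by
  have h3 : r = 0 ∨ r = 1 ∨ r = 2 := by clear hr; revert r; decide
  constructor
  · rintro ⟨hcl, P, Q, hP, hQ, hPQ⟩
    rcases h3 with h | h | h
    · refine ⟨hcl, P, Q, hP, hQ, fun e he => ?_⟩
      rw [(hPQ e he).1, (hPQ e he).2]
      by_cases hk : κ (v (e, false)) = j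
      · have := (hr e he hk).1 h
        simp [hk, this.1, this.2]
      · simp [hk]
    · refine ⟨hcl, fun e => P e + Q e, P, isFl_add hP hQ, hP, fun e he => ?_⟩
      beta_reduce
      rw [(hPQ e he).1, (hPQ e he).2]
      by_cases hk : κ (v (e, false)) = j
      · have := (hr e he hk).2.1 h
        simp only [hk, Finset.mem_singleton, if_true, this.1, this.2]
        have h5 : ∀ a b : F2, b + (a + b) = a := by decide
        exact ⟨h5 _ _, trivial⟩
      · simp [hk]
    · refine ⟨hcl, Q, fun e => P e + Q e, hQ, isFl_add hP hQ, fun e he => ?_⟩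
      beta_reduce
      rw [(hPQ e he).1, (hPQ e he).2]
      by_cases hk : κ (v (e, false)) = j
      · have := (hr e he hk).2.2 h
        simp only [hk, Finset.mem_singleton, if_true, this.1, this.2]
        have h5 : ∀ a b : F2, a + b + a = b := by decide
        exact ⟨trivial, h5 _ _⟩
      · simp [hk]
  · rintro ⟨hcl, P, Q, hP, hQ, hPQ⟩
    rcases h3 with h | h | h
    · refine ⟨hcl, P, Q, hP, hQ, fun e he => ?_⟩
      rw [(hPQ e he).1, (hPQ e he).2]
      by_cases hk : κ (v (e, false)) = j
      · have := (hr e he hk).1 h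
        simp [hk, this.1, this.2]
      · simp [hk]
    · refine ⟨hcl, Q, fun e => P e + Q e, hQ, isFl_add hP hQ, fun e he => ?_⟩
      beta_reduce
      rw [(hPQ e he).1, (hPQ e he).2]
      by_cases hk : κ (v (e, false)) = j
      · have := (hr e he hk).2.1 h
        simp only [hk, Finset.mem_singleton, if_true, this.1, this.2]
        exact ⟨trivial, trivial⟩
      · simp [hk]
    · refine ⟨hcl, fun e => P e + Q e, P, isFl_add hP hQ, hP, fun e he => ?_⟩
      beta_reduce
      rw [(hPQ e he).1, (hPQ e he).2]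
      by_cases hk : κ (v (e, false)) = j
      · have := (hr e he hk).2.2 h
        simp only [hk, Finset.mem_singleton, if_true, this.1, this.2]
        exact ⟨trivial, trivial⟩
      · simp [hk]

theorem owns (G : MGraph V E) (hG : ∀ v, G.deg univ v = 3) (S A B : Finset E)
    (hS : G.IsEven S) (hA : G.IsEven A) (hB : G.IsEven B)
    (hcov : ∀ e, e ∈ S ∨ e ∈ A ∨ e ∈ B) (κ : V → ι)
    (hκ : ∀ u w, κ u = κ w → Relation.ReflTransGen
      (fun a b => ∃ e, e ∉ S ∧ a ∈ G.ends e ∧ b ∈ G.ends e) u w)
    (O : Finset ι) (hcard : Oᶜ.card ≤ 3) (hOS : ∀ j ∈ O, SplitsAlong G S A B (univ.filter fun w => κ w = j)) :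
    ∃ F : Multiset (Finset E), G.IsCDC F ∧ ∀ C, G.IsCircuit C → C ⊆ S → C ∈ F := by
  classical
  obtain ⟨v, hv⟩ := G.exists_halves
  have hdeg : ∀ w, (univ.filter (fun h => v h = w)).card = 3 := fun w => by
    rw [card_halves G v hv, hG]
  have hfl : ∀ D, G.IsEven D → IsFl v (ind D) := fun D hD => (G.isEven_iff v hv D).1 hD
  obtain ⟨O', hO'⟩ : ∃ O' : Finset ι, ∀ j, j ∈ O' ↔ Sp v S κ (ind A) (ind B) {j} := by
    refine ⟨univ.filter (fun j => Sp v S κ (ind A) (ind B) {j}), fun j => by simp⟩
  have hOO : O ⊆ O' := by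
    intro j hj
    rw [hO']
    exact sp_of_splits G v hv S A B κ _ {j} (fun w => by simp) (hOS j hj)
  have hcard' : O'ᶜ.card ≤ 3 :=
    (Finset.card_le_card (Finset.compl_subset_compl.2 hOO)).trans hcard
  clear hOO hcard hOS
  clear O
  obtain ⟨O, hO⟩ : ∃ O : Finset ι, ∀ j, j ∈ O ↔ Sp v S κ (ind A) (ind B) {j} := ⟨O', hO'⟩
  have hOeq : O' = O := by ext j; rw [hO, hO']
  rw [hOeq] at hcard'
  clear hOeq hO' O'
  let κ' : V → Option ι := fun w => if κ w ∈ O then some (κ w) else none
  have hclo : ∀ e, e ∉ S → κ' (v (e, true)) = κ' (v (e, false)) := by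
    intro e he
    have h1 : ∀ j, j ∈ O → (κ (v (e, false)) = j ↔ κ (v (e, true)) = j) := by
      intro j hj
      have := ((hO j).1 hj).1 e he
      simpa using this
    by_cases h2 : κ (v (e, false)) ∈ O
    · have h3 := (h1 _ h2).1 rfl
      simp only [κ', h3]
    · by_cases h4 : κ (v (e, true)) ∈ O
      · exact absurd ((h1 _ h4).2 rfl ▸ h4) (by
          intro h5
          exact h2 (by rw [(h1 _ h4).2 rfl]; exact h4))
      · simp only [κ', h2, h4, if_false]
  refine units G hG S ∅ A B hS (fun w => by simp [MGraph.deg]) (Finset.disjoint_empty_right _)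
    (fun e => by rcases hcov e with h | h | h <;> simp [h]) κ' ?_ ?_
  · intro b
    rw [Finset.union_empty]
    cases b with
    | none =>
      refine splits_of_sp G v hv S A B κ _ Oᶜ (fun w => ?_)
        (sp_compl (hfl A hA) (hfl B hB) (sp_owns (hfl A hA) (hfl B hB) O (fun j hj => (hO j).1 hj)))
      simp only [κ', Finset.mem_filter, Finset.mem_univ, true_and, Finset.mem_compl]
      by_cases h : κ w ∈ O <;> simp [h]
    | some j =>
      by_cases hj : j ∈ O
      · refine splits_of_sp G v hv S A B κ _ {j} (fun w => ?_) ((hO j).1 hj)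
        simp only [κ', Finset.mem_filter, Finset.mem_univ, true_and, Finset.mem_singleton]
        by_cases h : κ w ∈ O
        · simp [h]
        · have : κ w ≠ j := fun h2 => h (h2 ▸ hj)
          simp [h, this]
      · refine splits_of_sp G v hv S A B κ _ ∅ (fun w => ?_)
          (sp_owns (hfl A hA) (hfl B hB) ∅ (fun j hj => absurd hj (Finset.notMem_empty _)))
        simp only [κ', Finset.mem_filter, Finset.mem_univ, true_and, Finset.notMem_empty,
          iff_false]
        by_cases h : κ w ∈ O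
        · simp only [h, if_true, Option.some.injEq]
          intro h2
          exact hj (h2 ▸ h)
        · simp [h]
  · intro A' B' hA' hB' hrot X hX
    rw [Finset.union_empty] at hrot hX
    obtain ⟨J, hJ⟩ := closed_union G S κ hκ X hX.1
    have hsp := sp_of_splits G v hv S _ _ κ X J hJ hX
    obtain ⟨ρ, hρ⟩ := hrot
    have hinv : ∀ j, Sp v S κ (ind A') (ind B') {j} ↔ Sp v S κ (ind A) (ind B) {j} := by
      intro j
      refine single_rot j (ρ (if j ∈ O then some j else none)) (fun e he hk => ?_)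
      have h1 := hρ e he (v (e, false)) (by rw [hv e]; simp)
      have h2 : κ' (v (e, false)) = (if j ∈ O then some j else none) := by
        simp only [κ', hk]
      rw [h2] at h1
      refine ⟨fun h => ?_, fun h => ?_, fun h => ?_⟩
      · have := h1.1 h
        simp only [ind, this.1, this.2]
        exact ⟨trivial, trivial⟩
      · have := h1.2.1 h
        simp only [ind, this.1, this.2]
        refine ⟨trivial, ?_⟩
        by_cases a1 : e ∈ A <;> by_cases a2 : e ∈ B <;> simp only [a1, a2] <;> decide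
      · have := h1.2.2 h
        simp only [ind, this.1, this.2]
        refine ⟨?_, trivial⟩
        by_cases a1 : e ∈ A <;> by_cases a2 : e ∈ B <;> simp only [a1, a2] <;> decide
    have hspO : ∀ O' : Finset ι, O' ⊆ O → Sp v S κ (ind A') (ind B') O' := fun O' h =>
      sp_owns (hfl A' hA') (hfl B' hB') O' (fun j hj => (hinv j).2 ((hO j).1 (h hj)))
    have hcomb : J ∩ Oᶜ = ∅ ∨ Oᶜ ⊆ J ∨
        ∃ j, j ∉ O ∧ (symmDiff J (J ∩ O) = {j} ∨ symmDiff Oᶜ (symmDiff J (J ∩ O)) = {j}) := by
      have g1 : symmDiff J (J ∩ O) = J ∩ Oᶜ := by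
        ext x; simp only [Finset.mem_symmDiff, Finset.mem_inter, Finset.mem_compl]; tauto
      have g2 : symmDiff Oᶜ (symmDiff J (J ∩ O)) = Oᶜ \ J := by
        rw [g1]
        ext x; simp only [Finset.mem_symmDiff, Finset.mem_inter, Finset.mem_compl,
          Finset.mem_sdiff]; tauto
      rw [g2, g1]
      have g3 : (J ∩ Oᶜ).card + (Oᶜ \ J).card = Oᶜ.card := by
        rw [Finset.inter_comm]; exact Finset.card_inter_add_card_sdiff _ _
      rcases Nat.eq_zero_or_pos (J ∩ Oᶜ).card with g4 | g4
      · exact Or.inl (Finset.card_eq_zero.1 g4)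
      rcases Nat.eq_zero_or_pos (Oᶜ \ J).card with g5 | g5
      · exact Or.inr (Or.inl (Finset.sdiff_eq_empty_iff_subset.1 (Finset.card_eq_zero.1 g5)))
      right; right
      have g6 : (J ∩ Oᶜ).card = 1 ∨ (Oᶜ \ J).card = 1 := by omega
      rcases g6 with g6 | g6
      · obtain ⟨j, hj⟩ := Finset.card_eq_one.1 g6
        refine ⟨j, ?_, Or.inl hj⟩
        have : j ∈ J ∩ Oᶜ := by rw [hj]; simp
        exact Finset.mem_compl.1 (Finset.mem_inter.1 this).2
      · obtain ⟨j, hj⟩ := Finset.card_eq_one.1 g6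
        refine ⟨j, ?_, Or.inr hj⟩
        have : j ∈ Oᶜ \ J := by rw [hj]; simp
        exact Finset.mem_compl.1 (Finset.mem_sdiff.1 this).1
    have h5 : Sp v S κ (ind A') (ind B') (symmDiff J (J ∩ O)) :=
      sp_symm hsp (hspO _ Finset.inter_subset_right)
    have h6 : Sp v S κ (ind A') (ind B') (symmDiff Oᶜ (symmDiff J (J ∩ O))) :=
      sp_symm (sp_compl (hfl A' hA') (hfl B' hB') (hspO O (Finset.Subset.refl _))) h5
    right; left
    have h7 : J ∩ Oᶜ = ∅ ∨ Oᶜ ⊆ J := by
      rcases hcomb with h | h | ⟨j, hj, h | h⟩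
      · exact Or.inl h
      · exact Or.inr h
      · rw [h] at h5
        exact absurd ((hO j).2 ((hinv j).1 h5)) hj
      · rw [h] at h6
        exact absurd ((hO j).2 ((hinv j).1 h6)) hj
    intro u w huw
    rw [hJ, hJ]
    by_cases hu : κ u ∈ O
    · by_cases hw : κ w ∈ O
      · simp only [κ', hu, hw, if_true, Option.some.injEq] at huw
        rw [huw]
      · simp [κ', hu, hw] at huw
    · by_cases hw : κ w ∈ O
      · simp [κ', hu, hw] at huw
      · rcases h7 with h | h
        · have h8 : ∀ x : ι, x ∉ O → x ∉ J := by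
            intro x hx hxJ
            have : x ∈ J ∩ Oᶜ := Finset.mem_inter.2 ⟨hxJ, Finset.mem_compl.2 hx⟩
            rw [h] at this
            exact absurd this (Finset.notMem_empty _)
          exact ⟨fun h9 => absurd h9 (h8 _ hu), fun h9 => absurd h9 (h8 _ hw)⟩
        · exact ⟨fun _ => h (Finset.mem_compl.2 hw), fun _ => h (Finset.mem_compl.2 hu)⟩

/-- at most four bridges -/
theorem four (G : MGraph V E) (hG : ∀ v, G.deg univ v = 3) (S A B : Finset E)
    (hS : G.IsEven S) (hA : G.IsEven A) (hB : G.IsEven B)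
    (hcov : ∀ e, e ∈ S ∨ e ∈ A ∨ e ∈ B) (κ : V → Fin 4)
    (hκ : ∀ u w, κ u = κ w → Relation.ReflTransGen
      (fun a b => ∃ e, e ∉ S ∧ a ∈ G.ends e ∧ b ∈ G.ends e) u w) :
    ∃ F : Multiset (Finset E), G.IsCDC F ∧ ∀ C, G.IsCircuit C → C ⊆ S → C ∈ F := by
  classical
  obtain ⟨v, hv⟩ := G.exists_halves
  have hdeg : ∀ w, (univ.filter (fun h => v h = w)).card = 3 := fun w => by
    rw [card_halves G v hv, hG]
  have hfl : ∀ D, G.IsEven D → IsFl v (ind D) := fun D hD => (G.isEven_iff v hv D).1 hD
  have hcov' : ∀ e, e ∉ S → ind A e ≠ 0 ∨ ind B e ≠ 0 := by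
    intro e he
    rcases hcov e with h | h | h
    · exact absurd h he
    · left; simp [ind, h]
    · right; simp [ind, h]
  by_cases hown : ∃ j, Sp v S κ (ind A) (ind B) {j}
  · obtain ⟨j, hj⟩ := hown
    refine owns G hG S A B hS hA hB hcov κ hκ {j} (by
      rw [Finset.card_compl, Finset.card_singleton, Fintype.card_fin]) (fun i hi => ?_)
    rw [Finset.mem_singleton] at hi
    subst hi
    exact splits_of_sp G v hv S A B κ _ {i} (fun w => by simp) hj
  · push Not at hown
    obtain ⟨α', β', h1, h2, h3, h4⟩ := no_own v hdeg S (hfl S hS) κ (ind A) (ind B) (hfl A hA)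
      (hfl B hB) hcov' hown
    exact good G hG v hv S hS κ hκ α' β' h1 h2 h3 h4

/-- all but at most three bridges carry a flow, or at most four bridges -/
theorem bridges (G : MGraph V E) (hG : ∀ v, G.deg univ v = 3) (S A B : Finset E)
    (hS : G.IsEven S) (hA : G.IsEven A) (hB : G.IsEven B)
    (hcov : ∀ e, e ∈ S ∨ e ∈ A ∨ e ∈ B) (κ : V → ι)
    (hκ : ∀ u w, κ u = κ w → Relation.ReflTransGen
      (fun a b => ∃ e, e ∉ S ∧ a ∈ G.ends e ∧ b ∈ G.ends e) u w)
    (h : Fintype.card ι ≤ 4 ∨ ∃ N : Finset ι, N.card ≤ 3 ∧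
      ∀ j, j ∉ N → SplitsAlong G S A B (univ.filter fun w => κ w = j)) :
    ∃ F : Multiset (Finset E), G.IsCDC F ∧ ∀ C, G.IsCircuit C → C ⊆ S → C ∈ F := by
  classical
  rcases h with h | ⟨N, hN, hsp⟩
  · obtain ⟨f⟩ : Nonempty (ι ↪ Fin 4) := Function.Embedding.nonempty_of_card_le (by simpa using h)
    exact four G hG S A B hS hA hB hcov (fun w => f (κ w))
      (fun u w huw => hκ u w (f.injective huw))
  · refine owns G hG S A B hS hA hB hcov κ hκ Nᶜ (by rw [compl_compl]; exact hN)
      (fun j hj => hsp j (Finset.mem_compl.1 hj))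

end

end Pool.Agent.H164R5
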