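import Pool.Agent.H126R2.CDC.Lift

set_option autoImplicit false
set_option linter.unusedSectionVars false

/-!
The lift of an eight-flow with prescribed values on a set of edges.
-/

namespace Pool.Agent.H164R5

open Finset
open Pool.Agent.Helper879.ECD (F2 IsFlow f2_add_self f2_cases)
open Pool.Agent.H126R2.CDC (functional_eq mem_cob_of_orth)

section

variable {W E : Type} [Fintype W] [DecidableEq W] [Fintype E] [DecidableEq E]

lemma flow_add {a b : E → W} {x y : E → F2} (hx : IsFlow a b x) (hy : IsFlow a b y) :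
    IsFlow a b (fun e => x e + y e) := by
  intro c
  have h1 := hx c
  have h2 := hy c
  simp only [add_mul, Finset.sum_add_distrib]
  rw [h1, h2, add_zero]

lemma flow_smul {a b : E → W} {x : E → F2} (r : F2) (hx : IsFlow a b x) :
    IsFlow a b (fun e => r * x e) := by
  intro c
  have h1 := hx c
  simp only [mul_assoc, ← Finset.mul_sum]
  rw [h1, mul_zero]

lemma flow_zero (a b : E → W) : IsFlow a b (fun _ => (0 : F2)) := by
  intro c; simp

/-- the pointwise identity behind the lift -/
lemma pid (A0 A1 z s d g0 g1 g2 D0 D1 D2 : F2)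
    (hnz : s = 0 → A0 ≠ 0 ∨ A1 ≠ 0 ∨ z ≠ 0) (hsz : s * z = 0)
    (h0 : (1 + s) * (d * A0) + s * g0 = D0) (h1 : (1 + s) * (d * A1) + s * g1 = D1)
    (h2 : (1 + s) * (d * z) + s * g2 = D2) :
    d * (1 + s) + g0 * (s * A0) + g1 * (s * (A0 + A1)) + g2 * (s * (A0 + A1 + A0 * A1)) =
      A0 * D0 + A1 * D1 + z * D2 + A0 * D1 + A0 * D2 + A1 * D2 + A0 * A1 * D2 := by
  subst h0 h1 h2
  revert hnz hsz
  revert A0 A1 z s d g0 g1 g2
  decide +kernel

/-- the pointwise identity for the cubic term -/
lemma pid2 (A0 A1 z s d g0 g1 g2 p0 p1 p2 q0 q1 q2 : F2) (hsz : s * z = 0)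
    (h0 : (1 + s) * (d * A0) + s * g0 = p0 + q0) (h1 : (1 + s) * (d * A1) + s * g1 = p1 + q1)
    (h2 : (1 + s) * (d * z) + s * g2 = p2 + q2) (hs : s = 1 → p2 = q2) :
    A0 * A1 * (p2 + q2) = A0 * (p1 * p2 + q1 * q2) + A1 * (p0 * p2 + q0 * q2) +
      z * (p0 * p1 + q0 * q1) + s * (g0 * A1 + g1 * A0) * (s * p2) := by
  have e0 : q0 = p0 + ((1 + s) * (d * A0) + s * g0) := by
    rw [h0, ← add_assoc, f2_add_self, zero_add]
  have e1 : q1 = p1 + ((1 + s) * (d * A1) + s * g1) := by
    rw [h1, ← add_assoc, f2_add_self, zero_add]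
  have e2 : q2 = p2 + ((1 + s) * (d * z) + s * g2) := by
    rw [h2, ← add_assoc, f2_add_self, zero_add]
  subst e0 e1 e2
  clear h0 h1 h2
  revert hsz hs
  revert A0 A1 z s d g0 g1 g2 p0 p1 p2
  decide +kernel

theorem plift (a b : E → W) (A0 A1 z s : E → F2) (hA0 : IsFlow a b A0) (hA1 : IsFlow a b A1)
    (hz : IsFlow a b z) (hs : IsFlow a b s) (hsz : ∀ e, s e * z e = 0)
    (hnz : ∀ e, s e = 0 → A0 e ≠ 0 ∨ A1 e ≠ 0 ∨ z e ≠ 0)
    (hpar : ∀ x : W → F2, (∀ e, s e = 0 → z e = 0 → x (a e) = x (b e)) →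
      (∀ c : W → F2, (∀ e, s e + z e = 1 → c (a e) = c (b e)) →
        ∑ e, (1 + s e + z e) * x (a e) * A0 e * (c (a e) + c (b e)) = 0 ∧
        ∑ e, (1 + s e + z e) * x (a e) * A1 e * (c (a e) + c (b e)) = 0) →
      (∀ e, s e = 1 → x (a e) = x (b e)) ∨
        ∑ e, A0 e * A1 e * (x (a e) + x (b e)) = 0) :
    ∃ B y : Fin 3 → E → F2, (∀ i, IsFlow a b (B i)) ∧ (∀ i, IsFlow a b (y i)) ∧
      (∀ i e, (1 + s e) * y i e = 0) ∧
      (∀ e, s e = 0 → A0 e * B 0 e + A1 e * B 1 e + z e * B 2 e = 1) ∧
      ∀ e, s e = 1 → B 0 e = A0 e + A1 e * y 2 e ∧ B 1 e = A0 e + A1 e + A0 e * y 2 e ∧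
        B 2 e = A0 e + A1 e + A0 e * A1 e + (A0 e * y 1 e + A1 e * y 0 e) := by
  classical
  let P : (Fin 3 → E → F2) → (Fin 3 → E → F2) → E × Fin 4 → F2 := fun B y ek =>
    if ek.2 = 0 then (1 + s ek.1) * (A0 ek.1 * B 0 ek.1 + A1 ek.1 * B 1 ek.1 + z ek.1 * B 2 ek.1)
    else if ek.2 = 1 then s ek.1 * (B 0 ek.1 + A1 ek.1 * y 2 ek.1)
    else if ek.2 = 2 then s ek.1 * (B 1 ek.1 + A0 ek.1 * y 2 ek.1)
    else s ek.1 * (B 2 ek.1 + (A0 ek.1 * y 1 ek.1 + A1 ek.1 * y 0 ek.1))
  let S : Submodule F2 (E × Fin 4 → F2) :=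
    { carrier := {X | ∃ B y : Fin 3 → E → F2, (∀ i, IsFlow a b (B i)) ∧ (∀ i, IsFlow a b (y i)) ∧
        (∀ i e, (1 + s e) * y i e = 0) ∧ P B y = X}
      zero_mem' := ⟨fun _ _ => 0, fun _ _ => 0, fun i => flow_zero a b, fun i => flow_zero a b,
        fun i e => by simp, by ext ek; simp [P]⟩
      add_mem' := by
        rintro X Y ⟨B, y, hB, hy, hsy, rfl⟩ ⟨B', y', hB', hy', hsy', rfl⟩
        refine ⟨fun i e => B i e + B' i e, fun i e => y i e + y' i e,
          fun i => flow_add (hB i) (hB' i), fun i => flow_add (hy i) (hy' i), fun i e => ?_, ?_⟩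
        · rw [mul_add, hsy, hsy', add_zero]
        · ext ek
          simp only [P, Pi.add_apply]
          split_ifs <;> ring
      smul_mem' := by
        rintro r X ⟨B, y, hB, hy, hsy, rfl⟩
        refine ⟨fun i e => r * B i e, fun i e => r * y i e,
          fun i => flow_smul r (hB i), fun i => flow_smul r (hy i), fun i e => ?_, ?_⟩
        · rw [mul_left_comm, hsy, mul_zero]
        · ext ek
          simp only [P, Pi.smul_apply, smul_eq_mul]
          split_ifs <;> ring }
  let τ : E × Fin 4 → F2 := fun ek =>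
    if ek.2 = 0 then 1 + s ek.1
    else if ek.2 = 1 then s ek.1 * A0 ek.1
    else if ek.2 = 2 then s ek.1 * (A0 ek.1 + A1 ek.1)
    else s ek.1 * (A0 ek.1 + A1 ek.1 + A0 ek.1 * A1 ek.1)
  suffices h : τ ∈ S by
    obtain ⟨B, y, hB, hy, hsy, hX⟩ := h
    have h0 : ∀ e, (1 + s e) * (A0 e * B 0 e + A1 e * B 1 e + z e * B 2 e) = 1 + s e := by
      intro e
      have := congrFun hX (e, 0)
      simpa [P, τ] using this
    have h1 : ∀ e, s e * (B 0 e + A1 e * y 2 e) = s e * A0 e := by
      intro e
      have := congrFun hX (e, 1)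
      simpa [P, τ] using this
    have h2 : ∀ e, s e * (B 1 e + A0 e * y 2 e) = s e * (A0 e + A1 e) := by
      intro e
      have := congrFun hX (e, 2)
      simpa [P, τ] using this
    have h3 : ∀ e, s e * (B 2 e + (A0 e * y 1 e + A1 e * y 0 e)) =
        s e * (A0 e + A1 e + A0 e * A1 e) := by
      intro e
      have := congrFun hX (e, 3)
      simpa [P, τ] using this
    have hh : ∀ u v w : F2, u + v = w → u = w + v := by decide
    refine ⟨B, y, hB, hy, hsy, fun e he => ?_, fun e he => ⟨?_, ?_, ?_⟩⟩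
    · have := h0 e
      rw [he] at this
      simpa using this
    · have := h1 e
      rw [he, one_mul, one_mul] at this
      exact hh _ _ _ this
    · have := h2 e
      rw [he, one_mul, one_mul] at this
      exact hh _ _ _ this
    · have := h3 e
      rw [he, one_mul, one_mul] at this
      exact hh _ _ _ this
  by_contra hcon
  obtain ⟨f, hf1, hf2⟩ := Submodule.exists_dual_map_eq_bot_of_notMem hcon inferInstance
  have hf : ∀ X ∈ S, f X = 0 := by
    intro X hX
    have : f X ∈ S.map f := Submodule.mem_map_of_mem hX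
    rw [hf2] at this
    exact (Submodule.mem_bot F2).1 this
  obtain ⟨d, hd⟩ : ∃ d : E → F2, ∀ e, d e = f (Pi.single (e, (0 : Fin 4)) 1) := ⟨_, fun _ => rfl⟩
  obtain ⟨g0, hg0⟩ : ∃ d : E → F2, ∀ e, d e = f (Pi.single (e, (1 : Fin 4)) 1) := ⟨_, fun _ => rfl⟩
  obtain ⟨g1, hg1⟩ : ∃ d : E → F2, ∀ e, d e = f (Pi.single (e, (2 : Fin 4)) 1) := ⟨_, fun _ => rfl⟩
  obtain ⟨g2, hg2⟩ : ∃ d : E → F2, ∀ e, d e = f (Pi.single (e, (3 : Fin 4)) 1) := ⟨_, fun _ => rfl⟩
  have hfX : ∀ X : E × Fin 4 → F2, f X =
      ∑ e, (d e * X (e, 0) + g0 e * X (e, 1) + g1 e * X (e, 2) + g2 e * X (e, 3)) := by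
    intro X
    rw [functional_eq f X, Fintype.sum_prod_type]
    apply Finset.sum_congr rfl
    intro e _
    rw [Fin.sum_univ_four, hd, hg0, hg1, hg2]
  have hS : ∀ B y : Fin 3 → E → F2, (∀ i, IsFlow a b (B i)) → (∀ i, IsFlow a b (y i)) →
      (∀ i e, (1 + s e) * y i e = 0) →
      ∑ e, (d e * ((1 + s e) * (A0 e * B 0 e + A1 e * B 1 e + z e * B 2 e)) +
        g0 e * (s e * (B 0 e + A1 e * y 2 e)) + g1 e * (s e * (B 1 e + A0 e * y 2 e)) +
        g2 e * (s e * (B 2 e + (A0 e * y 1 e + A1 e * y 0 e)))) = 0 := by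
    intro B y hB hy hsy
    have := hf (P B y) ⟨B, y, hB, hy, hsy, rfl⟩
    rw [hfX] at this
    simpa [P] using this
  -- coboundaries
  have hk0 : ∃ x : W → F2, ∀ e, (1 + s e) * (d e * A0 e) + s e * g0 e = x (a e) + x (b e) := by
    apply mem_cob_of_orth
    intro B hB
    have := hS (fun i => if i = 0 then B else fun _ => 0) (fun _ _ => 0)
      (fun i => by by_cases h : i = 0 <;> simp only [h, if_true, if_false] <;>
        first | exact hB | exact flow_zero a b) (fun _ => flow_zero a b) (fun _ _ => by simp)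
    rw [← this]
    apply Finset.sum_congr rfl
    intro e _
    simp
    ring
  have hk1 : ∃ x : W → F2, ∀ e, (1 + s e) * (d e * A1 e) + s e * g1 e = x (a e) + x (b e) := by
    apply mem_cob_of_orth
    intro B hB
    have := hS (fun i => if i = 1 then B else fun _ => 0) (fun _ _ => 0)
      (fun i => by by_cases h : i = 1 <;> simp only [h, if_true, if_false] <;>
        first | exact hB | exact flow_zero a b) (fun _ => flow_zero a b) (fun _ _ => by simp)
    rw [← this]
    apply Finset.sum_congr rfl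
    intro e _
    simp
    ring
  have hk2 : ∃ x : W → F2, ∀ e, (1 + s e) * (d e * z e) + s e * g2 e = x (a e) + x (b e) := by
    apply mem_cob_of_orth
    intro B hB
    have := hS (fun i => if i = 2 then B else fun _ => 0) (fun _ _ => 0)
      (fun i => by by_cases h : i = 2 <;> simp only [h, if_true, if_false] <;>
        first | exact hB | exact flow_zero a b) (fun _ => flow_zero a b) (fun _ _ => by simp)
    rw [← this]
    apply Finset.sum_congr rfl
    intro e _
    simp
    ring
  obtain ⟨x0, hx0⟩ := hk0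
  obtain ⟨x1, hx1⟩ := hk1
  obtain ⟨x2, hx2⟩ := hk2
  -- the conditions from the shifts
  have hy1 : ∀ u : E → F2, IsFlow a b u → (∀ e, (1 + s e) * u e = 0) →
      ∑ e, s e * g2 e * A0 e * u e = 0 := by
    intro u hu hsu
    have hf1 : ∀ i : Fin 3, IsFlow a b ((fun i => if i = 1 then u else fun _ => 0) i) := by
      intro i
      by_cases h : i = 1
      · simp only [h, if_true]; exact hu
      · simp only [h, if_false]; exact flow_zero a b
    have hf2 : ∀ (i : Fin 3) (e : E),
        (1 + s e) * ((fun i => if i = 1 then u else fun _ => 0) i : E → F2) e = 0 := by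
      intro i e
      by_cases h : i = 1
      · simp only [h, if_true]; exact hsu e
      · simp only [h, if_false, mul_zero]
    have := hS (fun _ _ => 0) (fun i => if i = 1 then u else fun _ => 0) (fun _ => flow_zero a b)
      hf1 hf2
    rw [← this]
    apply Finset.sum_congr rfl
    intro e _
    simp
    ring
  have hy0 : ∀ u : E → F2, IsFlow a b u → (∀ e, (1 + s e) * u e = 0) →
      ∑ e, s e * g2 e * A1 e * u e = 0 := by
    intro u hu hsu
    have hf1 : ∀ i : Fin 3, IsFlow a b ((fun i => if i = 0 then u else fun _ => 0) i) := by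
      intro i
      by_cases h : i = 0
      · simp only [h, if_true]; exact hu
      · simp only [h, if_false]; exact flow_zero a b
    have hf2 : ∀ (i : Fin 3) (e : E),
        (1 + s e) * ((fun i => if i = 0 then u else fun _ => 0) i : E → F2) e = 0 := by
      intro i e
      by_cases h : i = 0
      · simp only [h, if_true]; exact hsu e
      · simp only [h, if_false, mul_zero]
    have := hS (fun _ _ => 0) (fun i => if i = 0 then u else fun _ => 0) (fun _ => flow_zero a b)
      hf1 hf2
    rw [← this]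
    apply Finset.sum_congr rfl
    intro e _
    simp
    ring
  have hy2 : ∀ u : E → F2, IsFlow a b u → (∀ e, (1 + s e) * u e = 0) →
      ∑ e, s e * (g0 e * A1 e + g1 e * A0 e) * u e = 0 := by
    intro u hu hsu
    have hf1 : ∀ i : Fin 3, IsFlow a b ((fun i => if i = 2 then u else fun _ => 0) i) := by
      intro i
      by_cases h : i = 2
      · simp only [h, if_true]; exact hu
      · simp only [h, if_false]; exact flow_zero a b
    have hf2 : ∀ (i : Fin 3) (e : E),
        (1 + s e) * ((fun i => if i = 2 then u else fun _ => 0) i : E → F2) e = 0 := by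
      intro i e
      by_cases h : i = 2
      · simp only [h, if_true]; exact hsu e
      · simp only [h, if_false, mul_zero]
    have := hS (fun _ _ => 0) (fun i => if i = 2 then u else fun _ => 0) (fun _ => flow_zero a b)
      hf1 hf2
    rw [← this]
    apply Finset.sum_congr rfl
    intro e _
    simp
    ring
  -- the total
  have htot : f τ = ∑ e, A0 e * A1 e * (x2 (a e) + x2 (b e)) := by
    have e1 : f τ = ∑ e, (A0 e * (x0 (a e) + x0 (b e)) + A1 e * (x1 (a e) + x1 (b e)) +
        z e * (x2 (a e) + x2 (b e)) + A0 e * (x1 (a e) + x1 (b e)) +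
        A0 e * (x2 (a e) + x2 (b e)) + A1 e * (x2 (a e) + x2 (b e)) +
        A0 e * A1 e * (x2 (a e) + x2 (b e))) := by
      rw [hfX]
      apply Finset.sum_congr rfl
      intro e _
      rw [← pid (A0 e) (A1 e) (z e) (s e) (d e) (g0 e) (g1 e) (g2 e) _ _ _ (hnz e) (hsz e)
        (hx0 e) (hx1 e) (hx2 e)]
      simp [τ]
    rw [e1]
    simp only [Finset.sum_add_distrib]
    rw [hA0 x0, hA1 x1, hz x2, hA0 x1, hA0 x2, hA1 x2]
    simp
  apply hf1
  rw [htot]
  -- the hypotheses of the parity condition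
  have hc1 : ∀ e, s e = 0 → z e = 0 → x2 (a e) = x2 (b e) := by
    intro e h1 h2
    have := hx2 e
    rw [h1, h2] at this
    simp only [mul_zero, zero_mul, add_zero] at this
    have hh : ∀ u v : F2, 0 = u + v → u = v := by decide
    exact hh _ _ this
  -- the splitting condition
  have hsplit : ∀ (A x g : E → F2) (x' : W → F2), IsFlow a b A →
      (∀ e, (1 + s e) * (d e * A e) + s e * g e = x' (a e) + x' (b e)) →
      (∀ u : E → F2, IsFlow a b u → (∀ e, (1 + s e) * u e = 0) →
        ∑ e, s e * g2 e * A e * u e = 0) →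
      ∀ c : W → F2, (∀ e, s e + z e = 1 → c (a e) = c (b e)) →
        ∑ e, (1 + s e + z e) * x2 (a e) * A e * (c (a e) + c (b e)) = 0 := by
    intro A _ g x' hA hx' hy c hc
    have hu : IsFlow a b (fun e => s e * c (a e)) := by
      intro t
      have := hs (fun w => c w * t w)
      rw [← this]
      apply Finset.sum_congr rfl
      intro e _
      change s e * c (a e) * (t (a e) + t (b e)) = s e * (c (a e) * t (a e) + c (b e) * t (b e))
      rcases f2_cases (s e) with h | h
      · rw [h]; ring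
      · have h2 : c (a e) = c (b e) := hc e (by
          have := hsz e
          rw [h, one_mul] at this
          rw [h, this, add_zero])
        rw [h, h2]; ring
    have h1 := hy (fun e => s e * c (a e)) hu (fun e => by
      have : ∀ u v : F2, (1 + u) * (u * v) = 0 := by decide
      exact this _ _)
    have h2 := hz (fun w => c w * x' w)
    have h3 := hA (fun w => x2 w * c w)
    have key : ∀ e ∈ (univ : Finset E),
        (1 + s e + z e) * x2 (a e) * A e * (c (a e) + c (b e)) =
        A e * ((x2 (a e) * c (a e)) + (x2 (b e) * c (b e))) +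
          z e * ((c (a e) * x' (a e)) + (c (b e) * x' (b e))) +
          s e * g2 e * A e * (s e * c (a e)) := by
      intro e _
      have k1 := hx2 e
      have k2 := hx' e
      have k3 := hsz e
      have k4 := hc e
      revert k1 k2 k3 k4
      generalize s e = s', z e = z', d e = d', g2 e = g2', g e = g', A e = A', x2 (a e) = p,
        x2 (b e) = q, x' (a e) = p', x' (b e) = q', c (a e) = r, c (b e) = r'
      intro k1 k2 k3 k4
      have e1 : q = p + ((1 + s') * (d' * z') + s' * g2') := by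
        rw [k1, ← add_assoc, f2_add_self, zero_add]
      have e2 : q' = p' + ((1 + s') * (d' * A') + s' * g') := by
        rw [k2, ← add_assoc, f2_add_self, zero_add]
      subst e1 e2
      clear k1 k2
      revert k3 k4
      revert s' z' d' g2' g' A' p p' r r'
      decide +kernel
    rw [Finset.sum_congr rfl key]
    simp only [Finset.sum_add_distrib]
    rw [h1, h2, h3]
    simp
  rcases hpar x2 hc1 (fun c hc => ⟨hsplit A0 A0 g0 x0 hA0 hx0 hy1 c hc,
    hsplit A1 A1 g1 x1 hA1 hx1 hy0 c hc⟩) with h | h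
  · -- x2 is constant on the circuits
    have hu : IsFlow a b (fun e => s e * x2 (a e)) := by
      intro t
      have := hs (fun w => x2 w * t w)
      rw [← this]
      apply Finset.sum_congr rfl
      intro e _
      change s e * x2 (a e) * (t (a e) + t (b e)) =
        s e * (x2 (a e) * t (a e) + x2 (b e) * t (b e))
      rcases f2_cases (s e) with h' | h'
      · rw [h']; ring
      · have h2 := h e h'
        rw [h', h2]; ring
    have h1 := hy2 _ hu (fun e => by
      have : ∀ u v : F2, (1 + u) * (u * v) = 0 := by decide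
      exact this _ _)
    have h2 := hA0 (fun w => x1 w * x2 w)
    have h3 := hA1 (fun w => x0 w * x2 w)
    have h4 := hz (fun w => x0 w * x1 w)
    have key : ∀ e ∈ (univ : Finset E), A0 e * A1 e * (x2 (a e) + x2 (b e)) =
        A0 e * (x1 (a e) * x2 (a e) + x1 (b e) * x2 (b e)) +
        A1 e * (x0 (a e) * x2 (a e) + x0 (b e) * x2 (b e)) +
        z e * (x0 (a e) * x1 (a e) + x0 (b e) * x1 (b e)) +
        s e * (g0 e * A1 e + g1 e * A0 e) * (s e * x2 (a e)) := by
      intro e _
      exact pid2 (A0 e) (A1 e) (z e) (s e) (d e) (g0 e) (g1 e) (g2 e) _ _ _ _ _ _ (hsz e)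
        (hx0 e) (hx1 e) (hx2 e) (h e)
    rw [Finset.sum_congr rfl key]
    simp only [Finset.sum_add_distrib]
    rw [h1, h2, h3, h4]
    simp
  · exact h

end

end Pool.Agent.H164R5
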