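import Pool.Agent.H164R5.Classes
import Pool.Agent.H126R2.CDC.Main

set_option autoImplicit false
set_option linter.unusedSectionVars false

/-!
Circuit double covers through a 2-regular subgraph from flows that do not split.
-/

namespace Pool.Agent.H164R5

open Finset
open Pool.Agent.Helper879.ECD (F2 IsFlow f2_add_self f2_cases)
open Pool.Agent.H126R2.CDC
open Pool.Agent.H126R2.CDC.MGraph

section

variable {V E : Type} [Fintype V] [DecidableEq V] [Fintype E] [DecidableEq E]

/-- the edge e has one end in X and one end outside X -/
def Crosses (G : MGraph V E) (X : Finset V) (e : E) : Prop :=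
  (∃ v ∈ G.ends e, v ∈ X) ∧ ∃ v ∈ G.ends e, v ∉ X

/-- both ends of the edge e lie in X -/
def Inside (G : MGraph V E) (X : Finset V) (e : E) : Prop := ∀ v ∈ G.ends e, v ∈ X

open Classical in
/-- T is an even subgraph of G/E(S): every edge cut of G without an edge of S contains an even
number of edges of T. -/
def EvenMod (G : MGraph V E) (S T : Finset E) : Prop :=
  ∀ U : Finset V, (∀ e ∈ S, ¬ Crosses G U e) → Even (T.filter fun e => Crosses G U e).card

open Classical in
/-- The pair of even edge sets A, B splits along X modulo S. -/
def SplitsAlong (G : MGraph V E) (S A B : Finset E) (X : Finset V) : Prop :=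
  (∀ e, e ∉ S → ¬ Crosses G X e) ∧
    EvenMod G S ((A \ S).filter fun e => Inside G X e) ∧
    EvenMod G S ((B \ S).filter fun e => Inside G X e)

lemma crosses_iff (G : MGraph V E) {e : E} {x y : V} (h : G.ends e = s(x, y)) (X : Finset V) :
    Crosses G X e ↔ ¬ (x ∈ X ↔ y ∈ X) := by
  unfold Crosses
  rw [h]
  simp only [Sym2.mem_iff, exists_eq_or_imp, exists_eq_left]
  tauto

lemma inside_iff (G : MGraph V E) {e : E} {x y : V} (h : G.ends e = s(x, y)) (X : Finset V) :
    Inside G X e ↔ (x ∈ X ∧ y ∈ X) := by
  unfold Inside
  rw [h]
  simp only [Sym2.mem_iff, forall_eq_or_imp, forall_eq]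

/-- two circuits inside an even set of a cubic graph that share an edge are nested -/
lemma circuit_sub (G : MGraph V E) (hG : ∀ v, G.deg univ v = 3) {S0 C D : Finset E}
    (h0 : G.IsEven S0) (hC : G.IsCircuit C) (hD : G.IsCircuit D) (hCS : C ⊆ S0) (hDS : D ⊆ S0)
    {e : E} (heC : e ∈ C) (heD : e ∈ D) : C ⊆ D := by
  intro f hf
  have hchain := hC.2.2 e heC f hf
  induction hchain with
  | refl => exact heD
  | @tail b c _ hbc ih =>
    obtain ⟨hcC, w, hwb, hwc⟩ := hbc
    by_cases hbC : b ∈ C
    swap
    · -- b is in C because it is e or a later edge; handled by the induction hypothesis below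
      exact absurd (by
        rcases Relation.ReflTransGen.cases_tail ‹_› with h | ⟨d, _, hd⟩
        · rw [h]; exact heC
        · exact hd.1) hbC
    have hbD := ih hbC
    have hdD : G.deg D w = 2 := by
      rcases hD.2.1 w with h | h
      · exfalso
        rw [deg_eq_sum] at h
        have := (Finset.sum_eq_zero_iff.1 h) b hbD
        unfold ep at this
        rw [if_pos hwb] at this
        omega
      · exact h
    have hle : G.deg S0 w + G.deg (univ \ S0) w = 3 := by
      rw [add_comm, G.deg_sdiff (Finset.subset_univ S0) w, hG]
    have hsd := G.deg_sdiff hDS w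
    have hev := h0 w
    have hz : G.deg (S0 \ D) w = 0 := by
      rw [hdD] at hsd
      obtain ⟨k, hk⟩ := hev
      omega
    by_contra hcD
    rw [deg_eq_sum] at hz
    have := (Finset.sum_eq_zero_iff.1 hz) c (Finset.mem_sdiff.2 ⟨hCS hcC, hcD⟩)
    unfold ep at this
    rw [if_pos hwc] at this
    omega

lemma card_halves (G : MGraph V E) (v : E × Bool → V)
    (hv : ∀ e, G.ends e = s(v (e, false), v (e, true))) (w : V) :
    (univ.filter (fun h => v h = w)).card = G.deg univ w := by
  rw [deg_eq_sum, Finset.card_filter, Fintype.sum_prod_type]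
  apply Finset.sum_congr rfl
  intro e _
  rw [Fintype.sum_bool, G.ep_eq (hv e) w]
  ring

lemma even_iff_cast (n : ℕ) : Even n ↔ ((n : ℕ) : F2) = 0 := (ZMod.natCast_eq_zero_iff_even).symm

/-- main theorem -/
theorem split_main (G : MGraph V E) (hG : ∀ v, G.deg univ v = 3) (S0 Z A B : Finset E)
    (h0 : G.IsEven S0) (hZ : G.IsEven Z) (hdisj : Disjoint S0 Z)
    (hA : G.IsEven A) (hB : G.IsEven B) (hcov : ∀ e, e ∈ S0 ∨ e ∈ Z ∨ e ∈ A ∨ e ∈ B)
    (hsplit : ∀ X : Finset V, SplitsAlong G (S0 ∪ Z) A B X →
      (∀ e ∈ S0, ¬ Crosses G X e) ∨
        Even (Set.ncard {e | e ∈ A ∧ e ∈ B ∧ Crosses G X e})) :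
    ∃ F : Multiset (Finset E), G.IsCDC F ∧ ∀ C, G.IsCircuit C → C ⊆ S0 → C ∈ F := by
  classical
  obtain ⟨v, hv⟩ := G.exists_halves
  let ind : Finset E → E → F2 := fun D e => if e ∈ D then 1 else 0
  have hfl : ∀ D, G.IsEven D → IsFl v (ind D) := fun D hD => (G.isEven_iff v hv D).1 hD
  obtain ⟨S, hS2, hS1, hSc⟩ := classes v (fun w => by rw [card_halves G v hv, hG])
    (ind A) (ind B) (ind Z) (ind S0) (hfl A hA) (hfl B hB) (hfl Z hZ) (hfl S0 h0)
    (fun e => by
      by_cases h : e ∈ S0
      · have : e ∉ Z := Finset.disjoint_left.1 hdisj h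
        simp [ind, this]
      · simp [ind, h])
    (fun e he => by
      have h1 : e ∉ S0 := by intro h; simp [ind, h] at he
      rcases hcov e with h | h | h | h
      · exact absurd h h1
      · right; right; simp [ind, h]
      · left; simp [ind, h]
      · right; left; simp [ind, h])
    (by
      intro x hx hc
      let X : Finset V := univ.filter (fun w => x w = 1)
      have hX : ∀ w, w ∈ X ↔ x w = 1 := fun w => by simp [X]
      have hcr : ∀ e, ¬ Crosses G X e → x (v (e, false)) = x (v (e, true)) := by
        intro e he
        rw [crosses_iff G (hv e), hX, hX, not_not] at he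
        rcases f2_cases (x (v (e, false))) with h | h <;>
          rcases f2_cases (x (v (e, true))) with h' | h' <;> rw [h, h'] at he ⊢
        · exact absurd (he.2 rfl) (by decide)
        · exact absurd (he.1 rfl) (by decide)
      have hin : ∀ e, x (v (e, false)) = x (v (e, true)) →
          (Inside G X e ↔ x (v (e, false)) = 1) := by
        intro e he
        rw [inside_iff G (hv e), hX, hX, ← he]
        tauto
      have key : ∀ D : Finset E, (∀ c : V → F2,
          (∀ e, ind S0 e + ind Z e = 1 → c (v (e, false)) = c (v (e, true))) →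
          ∑ e, (1 + ind S0 e + ind Z e) * x (v (e, false)) * ind D e *
            (c (v (e, false)) + c (v (e, true))) = 0) →
          EvenMod G (S0 ∪ Z) ((D \ (S0 ∪ Z)).filter fun e => Inside G X e) := by
        intro D hD U hU
        rw [even_iff_cast]
        have h1 := hD (fun w => if w ∈ U then 1 else 0) (fun e he => by
          have h2 : e ∈ S0 ∪ Z := by
            by_contra h3
            rw [Finset.mem_union, not_or] at h3
            simp [ind, h3.1, h3.2] at he
          have h3 := hU e h2
          rw [crosses_iff G (hv e), not_not] at h3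
          by_cases h4 : v (e, false) ∈ U
          · rw [if_pos h4, if_pos (h3.1 h4)]
          · rw [if_neg h4, if_neg (fun h5 => h4 (h3.2 h5))])
        rw [← h1, Finset.card_filter, Nat.cast_sum, Finset.sum_filter, ← Finset.sum_subset
          (Finset.subset_univ (D \ (S0 ∪ Z)))]
        · apply Finset.sum_congr rfl
          intro e he
          rw [Finset.mem_sdiff, Finset.mem_union, not_or] at he
          have h2 : x (v (e, false)) = x (v (e, true)) :=
            hx e (by simp [ind, he.2.1]) (by simp [ind, he.2.2])
          by_cases h3 : Inside G X e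
          · have h4 := (hin e h2).1 h3
            rw [if_pos h3]
            simp only [crosses_iff G (hv e) U]
            by_cases h5 : v (e, false) ∈ U <;> by_cases h6 : v (e, true) ∈ U <;>
              simp [ind, he.1, he.2.1, he.2.2, h4, h5, h6]
            decide
          · have h4 : x (v (e, false)) = 0 := by
              rcases f2_cases (x (v (e, false))) with h | h
              · exact h
              · exact absurd ((hin e h2).2 h) h3
            rw [if_neg h3, h4]
            ring
        · intro e _ he
          rw [Finset.mem_sdiff, not_and, not_not] at he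
          by_cases hd : e ∈ D
          · have h2 := he hd
            have h3 : (1 + ind S0 e + ind Z e) = 0 := by
              by_cases h4 : e ∈ S0
              · have h5 : e ∉ Z := Finset.disjoint_left.1 hdisj h4
                simp only [ind, h4, h5, if_true, if_false]; decide
              · have h5 : e ∈ Z := (Finset.mem_union.1 h2).resolve_left h4
                simp only [ind, h4, h5, if_true, if_false]; decide
            rw [h3]; ring
          · simp [ind, hd]
      have hsp : SplitsAlong G (S0 ∪ Z) A B X := by
        refine ⟨?_, key A (fun c hcc => (hc c hcc).1), key B (fun c hcc => (hc c hcc).2)⟩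
        intro e he
        rw [Finset.mem_union, not_or] at he
        have h2 : x (v (e, false)) = x (v (e, true)) :=
          hx e (by simp [ind, he.1]) (by simp [ind, he.2])
        rw [crosses_iff G (hv e), hX, hX, h2]
        simp
      rcases hsplit X hsp with h | h
      · left
        intro e he
        apply hcr
        apply h
        by_contra h1
        simp [ind, h1] at he
      · right
        rw [even_iff_cast] at h
        have h2 : {e | e ∈ A ∧ e ∈ B ∧ Crosses G X e} =
            ((univ.filter (fun e => e ∈ A ∧ e ∈ B ∧ Crosses G X e) : Finset E) : Set E) := by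
          ext e; simp
        rw [h2, Set.ncard_coe_finset, Finset.card_filter, Nat.cast_sum] at h
        rw [← h]
        apply Finset.sum_congr rfl
        intro e _
        simp only [crosses_iff G (hv e) X, hX]
        have h3 : ∀ a b : F2, a + b = if ¬ (a = 1 ↔ b = 1) then 1 else 0 := by decide
        rw [h3]
        by_cases hAe : e ∈ A <;> by_cases hBe : e ∈ B <;>
          by_cases hx' : ¬ (x (v (e, false)) = 1 ↔ x (v (e, true)) = 1) <;>
          simp [ind, hAe, hBe, hx'])
  have hev : ∀ c : T3, G.IsEven (univ.filter (fun e => c ∈ S e)) := by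
    intro c
    rw [G.isEven_iff v hv]
    have h1 := hSc c
    have h2 : (fun e => if e ∈ univ.filter (fun e => c ∈ S e) then (1 : F2) else 0) =
        (fun e => if c ∈ S e then 1 else 0) := by
      ext e; simp
    rw [h2]
    exact h1
  choose F hF1 hF2 using fun c => G.decompose _ _ rfl (hev c)
  obtain ⟨F0, hF01, hF02⟩ := G.decompose _ _ rfl h0
  refine ⟨(∑ c, F c) + F0, ⟨?_, ?_⟩, ?_⟩
  · intro C hC
    rw [Multiset.mem_add] at hC
    rcases hC with hC | hC
    · rw [Multiset.mem_sum] at hC
      obtain ⟨c, _, hc⟩ := hC
      exact hF1 c C hc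
    · exact hF01 C hC
  · intro e
    have h1 : ∀ s : Finset T3, (∑ c ∈ s, F c).countP (fun C => e ∈ C) =
        ∑ c ∈ s, (F c).countP (fun C => e ∈ C) := by
      intro s
      induction s using Finset.induction_on with
      | empty => simp
      | insert c s hc ih => rw [Finset.sum_insert hc, Finset.sum_insert hc, Multiset.countP_add, ih]
    rw [Multiset.countP_add, h1, hF02]
    have h2 : ∀ c ∈ (univ : Finset T3), (F c).countP (fun C => e ∈ C) =
        if c ∈ S e then 1 else 0 := by
      intro c _
      rw [hF2 c e]
      simp
    rw [Finset.sum_congr rfl h2]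
    have h3 : ∑ c : T3, (if c ∈ S e then 1 else 0) = (S e).card := by simp
    rw [h3]
    by_cases he : e ∈ S0
    · rw [hS1 e (by simp [ind, he]), if_pos he]
    · rw [hS2 e (by simp [ind, he]), if_neg he]
  · intro C hC hCS
    obtain ⟨e, he⟩ := hC.1
    have h1 : F0.countP (fun C => e ∈ C) = 1 := by rw [hF02, if_pos (hCS he)]
    obtain ⟨D, hD, heD⟩ := Multiset.countP_pos.1 (by rw [h1]; norm_num : 0 < F0.countP (fun C => e ∈ C))
    have hDS : D ⊆ S0 := by
      intro f hf
      by_contra h2
      have h3 := hF02 f
      rw [if_neg h2] at h3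
      have h4 : 0 < F0.countP (fun C => f ∈ C) := Multiset.countP_pos.2 ⟨D, hD, hf⟩
      omega
    have h2 : C = D := Finset.Subset.antisymm
      (circuit_sub G hG h0 hC (hF01 D hD) hCS hDS he heD)
      (circuit_sub G hG h0 (hF01 D hD) hC hDS hCS heD he)
    rw [Multiset.mem_add]
    right
    rw [h2]
    exact hD

end

end Pool.Agent.H164R5
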