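import Pool.Agent.H164R5.Ext

set_option autoImplicit false
set_option linter.unusedSectionVars false

/-!
Circuit double covers from partwise scalings of a four-flow.
-/

namespace Pool.Agent.H164R5

open Finset Matrix
open Pool.Agent.Helper879.ECD (F2 IsFlow f2_add_self f2_cases)
open Pool.Agent.H126R2.CDC
open Pool.Agent.H126R2.CDC.MGraph

section

variable {V E : Type} [Fintype V] [DecidableEq V] [Fintype E] [DecidableEq E]

/-- Outside S the pair A', B' arises from A, B by one of the three rotations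
(a, b), (b, a + b), (a + b, a) of the indicator pair, the same one on each part of κ. -/
def PartRotation (G : MGraph V E) (S : Finset E) {ι : Type} (κ : V → ι)
    (A B A' B' : Finset E) : Prop :=
  ∃ ρ : ι → Fin 3, ∀ e, e ∉ S → ∀ v ∈ G.ends e,
    (ρ (κ v) = 0 → (e ∈ A' ↔ e ∈ A) ∧ (e ∈ B' ↔ e ∈ B)) ∧
    (ρ (κ v) = 1 → (e ∈ A' ↔ e ∈ B) ∧ (e ∈ B' ↔ ¬ (e ∈ A ↔ e ∈ B))) ∧
    (ρ (κ v) = 2 → (e ∈ A' ↔ ¬ (e ∈ A ↔ e ∈ B)) ∧ (e ∈ B' ↔ e ∈ A))

def xH : F4 →+ F2 where
  toFun z := z.x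
  map_zero' := rfl
  map_add' _ _ := rfl

def yH : F4 →+ F2 where
  toFun z := z.y
  map_zero' := rfl
  map_add' _ _ := rfl

def iH : F2 →+ F4 where
  toFun c := ⟨c, 0⟩
  map_zero' := rfl
  map_add' a b := by
    show (⟨a + b, 0⟩ : F4) = ⟨a + b, 0 + 0⟩
    rw [add_zero]

lemma iH_inj {c : F2} (h : iH c = 0) : c = 0 := congrArg F4.x h

lemma F4.ext' {a b : F4} (h1 : a.x = b.x) (h2 : a.y = b.y) : a = b := by
  cases a; cases b; simp_all

lemma F4.ne_zero_iff : ∀ a : F4, a ≠ 0 ↔ (a.x = 1 ∨ a.y = 1) := by decide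

lemma F4.pow4 : ∀ x : F4, x ^ 4 = x := by decide

lemma pt1 : ∀ x ζ a : F4, x * (ζ ^ 2 * a) ^ 2 + x ^ 2 * (ζ ^ 2 * a) =
    a * (x * ζ) ^ 2 + a ^ 2 * (x * ζ) := by decide

lemma nz3 : ∀ p q r : F4, p + (q + r) = 0 → r ≠ 0 → p + q ≠ 0 := by decide
lemma nz4 : ∀ p q r : F4, p + (q + r) = 0 → r = p + q := by decide
lemma nz5 : ∀ p q r : F4, p + (q + r) = 0 → q = p + r := by decide

theorem units (G : MGraph V E) (hG : ∀ v, G.deg univ v = 3) (S0 Z A B : Finset E)
    (h0 : G.IsEven S0) (hZ : G.IsEven Z) (hdisj : Disjoint S0 Z)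
    (hcov : ∀ e, e ∈ S0 ∨ e ∈ Z ∨ e ∈ A ∨ e ∈ B)
    {ι : Type} [Fintype ι] [DecidableEq ι] (κ : V → ι)
    (hκ : ∀ b, SplitsAlong G (S0 ∪ Z) A B (univ.filter fun v => κ v = b))
    (H : ∀ A' B' : Finset E, G.IsEven A' → G.IsEven B' → PartRotation G (S0 ∪ Z) κ A B A' B' →
      ∀ X : Finset V, SplitsAlong G (S0 ∪ Z) A' B' X → (∀ e ∈ S0, ¬ Crosses G X e) ∨
        (∀ u w, κ u = κ w → (u ∈ X ↔ w ∈ X)) ∨
        Even (Set.ncard {e | e ∈ A' ∧ e ∈ B' ∧ Crosses G X e})) :
    ∃ F : Multiset (Finset E), G.IsCDC F ∧ ∀ C, G.IsCircuit C → C ⊆ S0 → C ∈ F := by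
  classical
  obtain ⟨v, hv⟩ := G.exists_halves
  obtain ⟨S, hSdef⟩ : ∃ S : Finset E, S = S0 ∪ Z := ⟨_, rfl⟩
  rw [← hSdef] at hκ H
  let ind : Finset E → E → F2 := fun D e => if e ∈ D then 1 else 0
  have hfl : ∀ D, G.IsEven D → IsFl v (ind D) := fun D hD => (G.isEven_iff v hv D).1 hD
  have hdeg : ∀ w, (univ.filter (fun h => v h = w)).card = 3 := fun w => by
    rw [card_halves G v hv, hG]
  have hSfl : IsFl v (ind S) := by
    have h1 := (isFl_iff v _).2 (flow_add ((isFl_iff v _).1 (hfl S0 h0))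
      ((isFl_iff v _).1 (hfl Z hZ)))
    have h2 : (fun e => ind S0 e + ind Z e) = ind S := by
      ext e
      by_cases h3 : e ∈ S0
      · have h4 : e ∉ Z := Finset.disjoint_left.1 hdisj h3
        simp [ind, hSdef, h3, h4]
      · simp [ind, hSdef, h3]
    rw [h2] at h1
    exact h1
  have hindS : ∀ e, ind S e = 0 ↔ e ∉ S := by
    intro e; by_cases h : e ∈ S <;> simp [ind, h]
  have hindS1 : ∀ e, ind S e = 1 ↔ e ∈ S := by
    intro e; by_cases h : e ∈ S <;> simp [ind, h]
  choose h1 h2 h3 h12 h13 h23 hH hs3 hs12 using three_halves v hdeg (ind S) hSfl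
  have hsum3 : ∀ {M : Type} [AddCommMonoid M] (g : E → M) (w : V),
      ∑ h : E × Bool, (if v h = w then g h.1 else 0) =
        g (h1 w).1 + (g (h2 w).1 + g (h3 w).1) := by
    intro M _ g w
    rw [← Finset.sum_filter, hH w, Finset.sum_insert (by simp [h12 w, h13 w]),
      Finset.sum_pair (h23 w)]
  have hvh : ∀ w, v (h1 w) = w ∧ v (h2 w) = w ∧ v (h3 w) = w := by
    intro w
    have h4 : ∀ h ∈ ({h1 w, h2 w, h3 w} : Finset (E × Bool)), v h = w := by
      intro h hh
      rw [← hH w] at hh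
      exact (Finset.mem_filter.1 hh).2
    exact ⟨h4 _ (by simp), h4 _ (by simp), h4 _ (by simp)⟩
  have hκe : ∀ e, e ∉ S → κ (v (e, true)) = κ (v (e, false)) := by
    intro e he
    have h4 := (hκ (κ (v (e, false)))).1 e he
    rw [crosses_iff G (hv e), not_not, Finset.mem_filter, Finset.mem_filter] at h4
    simpa using h4
  have hκh : ∀ h : E × Bool, h.1 ∉ S → κ (v h) = κ (v (h.1, false)) := by
    rintro ⟨e, b⟩ he
    cases b
    · rfl
    · exact hκe e he
  -- the flows on the parts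
  have hext : ∀ b, ∃ P Q : E → F2, IsFl v P ∧ IsFl v Q ∧
      ∀ e, e ∉ S → P e = (if κ (v (e, false)) = b ∧ e ∈ A then 1 else 0) ∧
        Q e = (if κ (v (e, false)) = b ∧ e ∈ B then 1 else 0) := by
    intro b
    obtain ⟨P, hP1, hP2⟩ := ext_set G v hv S _ (by
      rw [Finset.disjoint_left]
      intro e he
      exact (Finset.mem_sdiff.1 (Finset.mem_filter.1 he).1).2) (hκ b).2.1
    obtain ⟨Q, hQ1, hQ2⟩ := ext_set G v hv S _ (by
      rw [Finset.disjoint_left]
      intro e he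
      exact (Finset.mem_sdiff.1 (Finset.mem_filter.1 he).1).2) (hκ b).2.2
    refine ⟨P, Q, hP1, hQ1, fun e he => ?_⟩
    have h4 := hκe e he
    rw [hP2 e he, hQ2 e he]
    simp only [Finset.mem_filter, Finset.mem_sdiff, he, not_false_eq_true, and_true,
      inside_iff G (hv e), Finset.mem_univ, true_and, h4, and_self]
    constructor
    · congr 1
      exact propext and_comm
    · congr 1
      exact propext and_comm
  choose P Q hP hQ hPQ using hext
  obtain ⟨z, hzdef⟩ : ∃ z : ι → E → F4, ∀ b e, z b e = ⟨P b e, Q b e⟩ := ⟨_, fun _ _ => rfl⟩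
  obtain ⟨a, hadef⟩ : ∃ a : (ι → F4) → E → F4, ∀ x e, a x e = ∑ b, x b * z b e :=
    ⟨_, fun _ _ => rfl⟩
  have hz : ∀ b w, z b (h1 w).1 + (z b (h2 w).1 + z b (h3 w).1) = 0 := by
    intro b w
    have e1 := hP b w
    have e2 := hQ b w
    rw [hsum3] at e1 e2
    rw [hzdef, hzdef, hzdef]
    exact F4.ext' e1 e2
  have ha : ∀ x w, a x (h1 w).1 + (a x (h2 w).1 + a x (h3 w).1) = 0 := by
    intro x w
    rw [hadef, hadef, hadef, ← Finset.sum_add_distrib, ← Finset.sum_add_distrib]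
    refine Finset.sum_eq_zero fun b _ => ?_
    rw [← mul_add, ← mul_add, hz b w, mul_zero]
  have hz0 : ∀ b e, e ∉ S → κ (v (e, false)) ≠ b → z b e = 0 := by
    intro b e he hb
    rw [hzdef, (hPQ b e he).1, (hPQ b e he).2, if_neg (fun h => hb h.1), if_neg (fun h => hb h.1)]
    rfl
  have hz1 : ∀ e, e ∉ S → z (κ (v (e, false))) e ≠ 0 := by
    intro e he h4
    rw [hzdef, (hPQ _ e he).1, (hPQ _ e he).2] at h4
    have h5 : e ∈ A ∨ e ∈ B := by
      rcases hcov e with h | h | h | h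
      · exact absurd (by rw [hSdef]; exact Finset.mem_union_left _ h) he
      · exact absurd (by rw [hSdef]; exact Finset.mem_union_right _ h) he
      · exact Or.inl h
      · exact Or.inr h
    rcases h5 with h5 | h5
    · have := congrArg F4.x h4
      simp [h5, F4.zero_x] at this
    · have := congrArg F4.y h4
      simp [h5, F4.zero_y] at this
  have haloc : ∀ x e, e ∉ S → a x e = x (κ (v (e, false))) * z (κ (v (e, false))) e := by
    intro x e he
    rw [hadef]
    refine Finset.sum_eq_single _ (fun b _ hb => ?_) (fun h => absurd (Finset.mem_univ _) h)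
    rw [hz0 b e he (Ne.symm hb), mul_zero]
  -- the local form
  obtain ⟨Λ, hΛ⟩ : ∃ Λ : (ι → F4) → V → F2, ∀ x w, Λ x w =
      ∑ h : E × Bool, (if v h = w then (a x h.1).x * (a x h.1).y else 0) := ⟨_, fun _ _ => rfl⟩
  obtain ⟨ζ, hζ⟩ : ∃ ζ : V → F4, ∀ w, ζ w = z (κ w) (h3 w).1 := ⟨_, fun _ => rfl⟩
  have h3S : ∀ w, (h3 w).1 ∉ S := fun w => (hindS _).1 (hs3 w)
  have hκ3 : ∀ w, κ (v ((h3 w).1, false)) = κ w := by
    intro w
    rw [← hκh (h3 w) (h3S w), (hvh w).2.2]
  have ha3 : ∀ x w, a x (h3 w).1 = x (κ w) * ζ w := by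
    intro x w
    rw [haloc x _ (h3S w), hκ3, hζ]
  have hloc : ∀ x w, iH (Λ x w) = if (h1 w).1 ∈ S then
      x (κ w) * ((ζ w) ^ 2 * a x (h1 w).1) ^ 2 + (x (κ w)) ^ 2 * ((ζ w) ^ 2 * a x (h1 w).1)
      else x (κ w) ^ 3 := by
    intro x w
    have e1 : Λ x w = (a x (h1 w).1).x * (a x (h1 w).1).y +
        ((a x (h2 w).1).x * (a x (h2 w).1).y + (a x (h3 w).1).x * (a x (h3 w).1).y) := by
      rw [hΛ]
      exact hsum3 (fun e => (a x e).x * (a x e).y) w
    rw [e1]
    by_cases hS1 : (h1 w).1 ∈ S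
    · rw [if_pos hS1, pt1, ← ha3, nz5 _ _ _ (ha x w)]
      exact loc1 _ _
    · rw [if_neg hS1]
      have hS2 : (h2 w).1 ∉ S := by
        rcases hs12 w with h | h
        · exact (hindS _).1 h.2
        · exact absurd ((hindS1 _).1 h.1) hS1
      have k1 : κ (v ((h1 w).1, false)) = κ w := by rw [← hκh (h1 w) hS1, (hvh w).1]
      have k2 : κ (v ((h2 w).1, false)) = κ w := by rw [← hκh (h2 w) hS2, (hvh w).2.1]
      have n1 : z (κ w) (h1 w).1 ≠ 0 := by have := hz1 _ hS1; rwa [k1] at this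
      have n2 : z (κ w) (h2 w).1 ≠ 0 := by have := hz1 _ hS2; rwa [k2] at this
      have n3 : z (κ w) (h3 w).1 ≠ 0 := by have := hz1 _ (h3S w); rwa [hκ3] at this
      have hzz := hz (κ w) w
      rw [haloc x _ hS1, haloc x _ hS2, haloc x _ (h3S w), k1, k2, hκ3, nz4 _ _ _ hzz]
      exact loc0 _ _ _ n1 n2 (nz3 _ _ _ hzz n3)
  obtain ⟨M, hM⟩ : ∃ M : Matrix ι ι F4, ∀ b c, M b c =
      ∑ w ∈ univ.filter (fun w => κ w = b), (if (h1 w).1 ∈ S then (ζ w) ^ 2 * z c (h1 w).1 else 0) :=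
    ⟨fun b c => _, fun _ _ => rfl⟩
  obtain ⟨m, hm⟩ : ∃ m : ι → F4, ∀ b, m b =
      ∑ w ∈ univ.filter (fun w => κ w = b), (if (h1 w).1 ∈ S then 0 else 1) := ⟨_, fun _ => rfl⟩
  have hMx : ∀ (x : ι → F4) b, (M *ᵥ x) b =
      ∑ w ∈ univ.filter (fun w => κ w = b), (if (h1 w).1 ∈ S then (ζ w) ^ 2 * a x (h1 w).1 else 0) := by
    intro x b
    unfold Matrix.mulVec dotProduct
    simp only [hM, Finset.sum_mul]
    rw [Finset.sum_comm]
    apply Finset.sum_congr rfl
    intro w _
    by_cases hw : (h1 w).1 ∈ S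
    · simp only [hw, if_true]
      rw [hadef, Finset.mul_sum]
      apply Finset.sum_congr rfl
      intro c _
      ring
    · simp [hw]
  have hform : ∀ (x : ι → F4) b, ∑ w ∈ univ.filter (fun w => κ w = b), iH (Λ x w) =
      x b ^ 3 * m b + x b * (M *ᵥ x) b ^ 2 + x b ^ 2 * (M *ᵥ x) b := by
    intro x b
    rw [hMx, hm, CharTwo.sum_sq, Finset.mul_sum, Finset.mul_sum, Finset.mul_sum,
      ← Finset.sum_add_distrib, ← Finset.sum_add_distrib]
    apply Finset.sum_congr rfl
    intro w hw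
    rw [hloc, (Finset.mem_filter.1 hw).2]
    by_cases hw1 : (h1 w).1 ∈ S
    · simp only [hw1, if_true]; ring
    · simp only [hw1, if_false]; ring
  have hΛtot : ∀ x, ∑ w, Λ x w = 0 := by
    intro x
    simp only [hΛ]
    rw [Finset.sum_comm]
    simp only [Finset.sum_ite_eq, Finset.mem_univ, if_true]
    rw [Fintype.sum_prod_type]
    refine Finset.sum_eq_zero fun e _ => ?_
    rw [Fintype.sum_bool]
    exact f2_add_self _
  obtain ⟨x, hx0, hx⟩ := Pool.Agent.H164R2.solve (K := F4) F4.pow4 ⟨0, 1⟩ (by decide) (by decide)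
    m M (by
      intro x
      have e1 : ∀ b ∈ (univ : Finset ι), (x b ^ 3 * m b + x b * (M *ᵥ x) b ^ 2 +
          x b ^ 2 * (M *ᵥ x) b) = ∑ w ∈ univ.filter (fun w => κ w = b), iH (Λ x w) :=
        fun b _ => (hform x b).symm
      rw [Finset.sum_congr rfl e1, Finset.sum_fiberwise, ← map_sum, hΛtot, map_zero])
  have hπ : ∀ b, ∑ w ∈ univ.filter (fun w => κ w = b), Λ x w = 0 := by
    intro b
    apply iH_inj
    rw [map_sum, hform]
    exact hx b
  -- the scaled pair
  have hAev : G.IsEven (univ.filter (fun e => (a x e).x = 1)) := by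
    rw [G.isEven_iff v hv]
    have e1 : (fun e => if e ∈ univ.filter (fun e => (a x e).x = 1) then (1 : F2) else 0) =
        fun e => (a x e).x := by
      ext e
      simp only [Finset.mem_filter, Finset.mem_univ, true_and]
      rcases f2_cases (a x e).x with h | h <;> rw [h] <;> decide
    rw [e1]
    intro w
    rw [hsum3 (fun e => (a x e).x)]
    exact congrArg F4.x (ha x w)
  have hBev : G.IsEven (univ.filter (fun e => (a x e).y = 1)) := by
    rw [G.isEven_iff v hv]
    have e1 : (fun e => if e ∈ univ.filter (fun e => (a x e).y = 1) then (1 : F2) else 0) =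
        fun e => (a x e).y := by
      ext e
      simp only [Finset.mem_filter, Finset.mem_univ, true_and]
      rcases f2_cases (a x e).y with h | h <;> rw [h] <;> decide
    rw [e1]
    intro w
    rw [hsum3 (fun e => (a x e).y)]
    exact congrArg F4.y (ha x w)
  have hcov' : ∀ e, e ∈ S0 ∨ e ∈ Z ∨ e ∈ univ.filter (fun e => (a x e).x = 1) ∨
      e ∈ univ.filter (fun e => (a x e).y = 1) := by
    intro e
    by_cases he : e ∈ S
    · rw [hSdef, Finset.mem_union] at he
      rcases he with h | h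
      · exact Or.inl h
      · exact Or.inr (Or.inl h)
    · right; right
      have h4 : a x e ≠ 0 := by
        rw [haloc x e he]
        exact mul_ne_zero (hx0 _) (hz1 e he)
      rw [F4.ne_zero_iff] at h4
      simpa using h4
  have hrot : PartRotation G S κ A B (univ.filter (fun e => (a x e).x = 1))
      (univ.filter (fun e => (a x e).y = 1)) := by
    refine ⟨fun b => if x b = ⟨1, 0⟩ then 0 else if x b = ⟨0, 1⟩ then 1 else 2, ?_⟩
    intro e he u hu
    have hκu : κ u = κ (v (e, false)) := by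
      rw [hv e, Sym2.mem_iff] at hu
      rcases hu with h | h
      · rw [h]
      · rw [h]; exact hκe e he
    rw [hκu]
    simp only [Finset.mem_filter, Finset.mem_univ, true_and]
    rw [haloc x e he, hzdef, (hPQ _ e he).1, (hPQ _ e he).2]
    have h4 := hx0 (κ (v (e, false)))
    generalize x (κ (v (e, false))) = y at h4
    have hy : y = ⟨1, 0⟩ ∨ y = ⟨0, 1⟩ ∨ y = ⟨1, 1⟩ := by
      revert h4; revert y; decide
    by_cases hAe : e ∈ A <;> by_cases hBe : e ∈ B <;> rcases hy with h | h | h <;> subst h <;>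
      simp only [hAe, hBe, and_self, and_true, and_false, if_true, if_false] <;> decide
  refine split_main G hG S0 Z _ _ h0 hZ hdisj hAev hBev hcov' ?_
  intro X hX
  rw [← hSdef] at hX
  rcases H _ _ hAev hBev hrot X hX with h | h | h
  · exact Or.inl h
  · right
    rw [even_iff_cast]
    have h2' : {e | e ∈ univ.filter (fun e => (a x e).x = 1) ∧
        e ∈ univ.filter (fun e => (a x e).y = 1) ∧ Crosses G X e} =
        ((univ.filter (fun e => (a x e).x = 1 ∧ (a x e).y = 1 ∧ Crosses G X e) : Finset E) :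
          Set E) := by
      ext e; simp
    rw [h2', Set.ncard_coe_finset, Finset.card_filter, Nat.cast_sum]
    have e1 : ∀ e ∈ (univ : Finset E),
        (((if (a x e).x = 1 ∧ (a x e).y = 1 ∧ Crosses G X e then 1 else 0 : ℕ)) : F2) =
        ∑ b : Bool, (a x e).x * (a x e).y * (if v (e, b) ∈ X then 1 else 0) := by
      intro e _
      rw [Fintype.sum_bool]
      simp only [crosses_iff G (hv e) X]
      generalize (a x e).x = p, (a x e).y = q
      by_cases h4 : v (e, false) ∈ X <;> by_cases h5 : v (e, true) ∈ X <;>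
        simp only [h4, h5, if_true, if_false] <;> revert p q <;> decide
    rw [Finset.sum_congr rfl e1, ← Fintype.sum_prod_type (f := fun h : E × Bool =>
      (a x h.1).x * (a x h.1).y * (if v h ∈ X then 1 else 0))]
    have e2 : ∑ h : E × Bool, (a x h.1).x * (a x h.1).y * (if v h ∈ X then 1 else 0) =
        ∑ w, (if w ∈ X then (1 : F2) else 0) * Λ x w := by
      simp only [hΛ, Finset.mul_sum]
      rw [Finset.sum_comm]
      apply Finset.sum_congr rfl
      intro h _
      simp only [mul_ite, mul_zero, Finset.sum_ite_eq, Finset.mem_univ, if_true]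
      by_cases h4 : v h ∈ X <;> simp [h4]
    rw [e2, ← Finset.sum_fiberwise (s := univ) (g := κ)]
    refine Finset.sum_eq_zero fun b _ => ?_
    by_cases hb : ∃ w, κ w = b
    · obtain ⟨w0, hw0⟩ := hb
      have e3 : ∀ w ∈ univ.filter (fun w => κ w = b), (if w ∈ X then (1 : F2) else 0) * Λ x w =
          (if w0 ∈ X then (1 : F2) else 0) * Λ x w := by
        intro w hw
        have h4 := h w w0 ((Finset.mem_filter.1 hw).2.trans hw0.symm)
        simp only [h4]
      rw [Finset.sum_congr rfl e3, ← Finset.mul_sum, hπ, mul_zero]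
    · have e3 : univ.filter (fun w => κ w = b) = ∅ := by
        rw [Finset.filter_eq_empty_iff]
        intro w _ hw
        exact hb ⟨w, hw⟩
      rw [e3, Finset.sum_empty]
  · exact Or.inr h

end

end Pool.Agent.H164R5
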